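import Pool.Agent.H609.GF.Gr
import Pool.Agent.H609.GF.Key

/-!
# Evaluation of power series, and the algebraic numbers `f(b ^ (-n))`
-/

set_option autoImplicit false

namespace Pool.Agent.H609.GF

open Finset PowerSeries

/-- absolute convergence -/
def Sm (x : ℝ) (f : ℚ⟦X⟧) : Prop := Summable fun k => ‖((coeff k f : ℚ) : ℝ) * x ^ k‖

/-- evaluation -/
noncomputable def ev (x : ℝ) (f : ℚ⟦X⟧) : ℝ := ∑' k, ((coeff k f : ℚ) : ℝ) * x ^ k

theorem anti_mul (x : ℝ) (f g : ℚ⟦X⟧) (n : ℕ) :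
    ∑ p ∈ antidiagonal n, (((coeff p.1 f : ℚ) : ℝ) * x ^ p.1) * (((coeff p.2 g : ℚ) : ℝ) * x ^ p.2) =
      ((coeff n (f * g) : ℚ) : ℝ) * x ^ n := by
  rw [PowerSeries.coeff_mul]
  push_cast
  rw [sum_mul]
  refine sum_congr rfl fun p hp => ?_
  rw [HasAntidiagonal.mem_antidiagonal] at hp
  rw [← hp, pow_add]
  ring

theorem Sm.mul {x : ℝ} {f g : ℚ⟦X⟧} (hf : Sm x f) (hg : Sm x g) : Sm x (f * g) := by
  have h := summable_norm_sum_mul_antidiagonal_of_summable_norm hf hg
  refine Summable.congr h fun n => ?_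
  rw [anti_mul]

theorem ev_mul {x : ℝ} {f g : ℚ⟦X⟧} (hf : Sm x f) (hg : Sm x g) :
    ev x (f * g) = ev x f * ev x g := by
  have h := tsum_mul_tsum_eq_tsum_sum_antidiagonal_of_summable_norm hf hg
  unfold ev
  rw [h]
  exact tsum_congr fun n => (anti_mul x f g n).symm

theorem Sm.add {x : ℝ} {f g : ℚ⟦X⟧} (hf : Sm x f) (hg : Sm x g) : Sm x (f + g) := by
  refine Summable.of_nonneg_of_le (fun k => norm_nonneg _) (fun k => ?_) (Summable.add hf hg)
  rw [map_add]
  push_cast
  rw [add_mul]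
  exact norm_add_le _ _

theorem ev_add {x : ℝ} {f g : ℚ⟦X⟧} (hf : Sm x f) (hg : Sm x g) :
    ev x (f + g) = ev x f + ev x g := by
  unfold ev
  rw [← hf.of_norm.tsum_add hg.of_norm]
  refine tsum_congr fun k => ?_
  rw [map_add]
  push_cast
  ring

theorem Sm.const (x : ℝ) (r : ℚ) : Sm x (C r) := by
  refine summable_of_ne_finset_zero (s := {0}) fun k hk => ?_
  rw [mem_singleton] at hk
  rw [coeff_C, if_neg hk]
  simp

theorem ev_const (x : ℝ) (r : ℚ) : ev x (C r) = r := by
  unfold ev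
  rw [tsum_eq_single 0]
  · simp
  · intro k hk
    rw [coeff_C, if_neg hk]
    simp

theorem Sm.X (x : ℝ) : Sm x (X : ℚ⟦X⟧) := by
  refine summable_of_ne_finset_zero (s := {1}) fun k hk => ?_
  rw [mem_singleton] at hk
  rw [coeff_X, if_neg hk]
  simp

theorem ev_X (x : ℝ) : ev x (X : ℚ⟦X⟧) = x := by
  unfold ev
  rw [tsum_eq_single 1]
  · simp
  · intro k hk
    rw [coeff_X, if_neg hk]
    simp

/-- the algebra of the series which converge absolutely -/
def SmA (x : ℝ) : Subalgebra ℚ ℚ⟦X⟧ where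
  carrier := {f | Sm x f}
  mul_mem' := Sm.mul
  add_mem' := Sm.add
  algebraMap_mem' := Sm.const x

/-- evaluation as a homomorphism -/
noncomputable def evA (x : ℝ) : SmA x →ₐ[ℚ] ℝ where
  toFun f := ev x f.1
  map_one' := by
    have := ev_const x 1
    simpa using this
  map_mul' f g := ev_mul f.2 g.2
  map_zero' := by
    have := ev_const x 0
    simpa using this
  map_add' f g := ev_add f.2 g.2
  commutes' r := ev_const x r

lemma poly_aeval (P : Polynomial ℚ) : Polynomial.aeval (X : ℚ⟦X⟧) P = (P : ℚ⟦X⟧) := by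
  rw [Polynomial.aeval_def, Polynomial.eval₂_eq_sum_range]
  conv_rhs => rw [P.as_sum_range_C_mul_X_pow]
  rw [← Polynomial.coeToPowerSeries.ringHom_apply, map_sum]
  refine Finset.sum_congr rfl fun i _ => ?_
  rw [map_mul, map_pow, Polynomial.coeToPowerSeries.ringHom_apply,
    Polynomial.coeToPowerSeries.ringHom_apply, Polynomial.coe_C, Polynomial.coe_X]
  rfl

/-- the polynomials inside the convergent series -/
noncomputable def polyA (x : ℝ) : Polynomial ℚ →ₐ[ℚ] SmA x :=
  Polynomial.aeval (⟨X, Sm.X x⟩ : SmA x)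

lemma polyA_val (x : ℝ) (P : Polynomial ℚ) : ((polyA x P : SmA x) : ℚ⟦X⟧) = (P : ℚ⟦X⟧) := by
  have h : (SmA x).val.comp (polyA x) = Polynomial.aeval (X : ℚ⟦X⟧) := by
    apply Polynomial.algHom_ext
    simp [polyA]
  have h2 := congrArg (fun φ => φ P) h
  simp only [AlgHom.comp_apply] at h2
  rw [poly_aeval] at h2
  exact h2

lemma evA_polyA (x : ℝ) (P : Polynomial ℚ) : evA x (polyA x P) = Polynomial.aeval x P := by
  have h : (evA x).comp (polyA x) = Polynomial.aeval x := by
    apply Polynomial.algHom_ext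
    simp only [AlgHom.comp_apply, polyA, Polynomial.aeval_X]
    exact ev_X x
  have h2 := congrArg (fun φ => φ P) h
  exact h2

lemma Sm_poly (x : ℝ) (P : Polynomial ℚ) : Sm x (P : ℚ⟦X⟧) := by
  rw [← polyA_val x P]
  exact (polyA x P).2

lemma ev_poly (x : ℝ) (P : Polynomial ℚ) : ev x (P : ℚ⟦X⟧) = Polynomial.aeval x P := by
  rw [← evA_polyA, ← polyA_val x P]
  rfl

/-- the algebraic relation for the values -/
lemma rel {x : ℝ} {f : ℚ⟦X⟧} (hf : Sm x f) {P : Polynomial (Polynomial ℚ)}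
    (h : Polynomial.aeval f P = 0) :
    ∑ j ∈ range (P.natDegree + 1), Polynomial.aeval x (P.coeff j) * (ev x f) ^ j = 0 := by
  let F : SmA x := ⟨f, hf⟩
  have h1 : P.eval₂ (polyA x).toRingHom F = 0 := by
    apply Subtype.ext
    have h2 := Polynomial.hom_eval₂ P (polyA x).toRingHom (SmA x).val.toRingHom F
    change (SmA x).val.toRingHom (P.eval₂ (polyA x).toRingHom F) = 0
    rw [h2]
    have h3 : (SmA x).val.toRingHom.comp (polyA x).toRingHom =
        algebraMap (Polynomial ℚ) ℚ⟦X⟧ := by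
      refine RingHom.ext fun p => ?_
      have h4 : algebraMap (Polynomial ℚ) ℚ⟦X⟧ p = (p : ℚ⟦X⟧) := by
        rw [PowerSeries.algebraMap_apply', Algebra.algebraMap_self, PowerSeries.map_id]
        rfl
      rw [h4]
      exact polyA_val x p
    rw [h3]
    exact h
  have h5 := Polynomial.hom_eval₂ P (polyA x).toRingHom (evA x).toRingHom F
  rw [h1, map_zero, Polynomial.eval₂_eq_sum_range] at h5
  rw [h5]
  refine sum_congr rfl fun j _ => ?_
  congr 1
  exact (evA_polyA x _).symm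

end Pool.Agent.H609.GF
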