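import Pool.Agent.H609.GF.Win
import Pool.Graph.R_pool_sql_team_seeded_3997aac3.Q263.JM.Avg

/-!
# Numbers `y + m α` whose shifts are spread in the dual sense are nearly normal, for most `m`
-/

set_option autoImplicit false

namespace Pool.Agent.H609.GF

open Finset Real
open Pool.Agent.Q263.JM (avg)

/-- the word of the `k` digits in base `b` of `y` which follow the first `n` digits after the point,
read as an integer between `0` and `b ^ k - 1` -/
noncomputable def word (b k n : ℕ) (y : ℝ) : ℕ :=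
  ⌊(b : ℝ) ^ k * Int.fract ((b : ℝ) ^ n * y)⌋₊

/-- every word of at most `w` digits has the right frequency in every window of the first `D`
digits, up to an error `ε N + E`, where `N` is the length of the window -/
def NormalUpTo (b w D : ℕ) (ε E z : ℝ) : Prop :=
  ∀ k s N j : ℕ, 1 ≤ k → k ≤ w → j < b ^ k → s + N ≤ D →
    |((({i ∈ range N | word b k (s + i) z = j} : Finset ℕ).card : ℕ) : ℝ) - N / (b : ℝ) ^ k| ≤
      ε * N + E

lemma word_add (b k u i : ℕ) (y : ℝ) : word b k (u + k * i) y =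
    ⌊((b ^ k : ℕ) : ℝ) * Int.fract (((b ^ k : ℕ) : ℝ) ^ i * ((b : ℝ) ^ u * y))⌋₊ := by
  unfold word
  push_cast
  rw [pow_add, pow_mul]
  congr 3
  ring

/-- the bad integers for one word and one place -/
noncomputable def bad (b L M : ℕ) (α y η : ℝ) (k j s : ℕ) : Finset ℕ :=
  (range M).filter (fun m : ℕ => η * L < |((((range L).filter (fun i =>
      ⌊((b ^ k : ℕ) : ℝ) * Int.fract (((b ^ k : ℕ) : ℝ) ^ i *
        ((b : ℝ) ^ s * y + m * ((b : ℝ) ^ s * α)))⌋₊ = j)).card : ℕ) : ℝ) -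
        L / ((b ^ k : ℕ) : ℝ)|)

lemma bad_card (b w L M D : ℕ) (hb : 2 ≤ b) (hL : 2 ≤ L) (α y ρ η : ℝ) (hρ : 0 < ρ)
    (hη : 0 < η) (hη1 : η ≤ 1)
    (h : ∀ s ≤ D, ∀ u : ℕ, 1 ≤ u → u < b ^ (w * L) → ∀ p : ℤ,
      ρ ≤ |(u : ℝ) * ((b : ℝ) ^ s * α) - p|)
    (hM : 4 / ρ * (b : ℝ) ^ (w * L) ≤ M) (k j s : ℕ) (hk : 1 ≤ k) (hkw : k ≤ w)
    (hj : j < b ^ k) (hs : s ≤ D) :
    ((bad b L M α y η k j s).card : ℝ) ≤ 34 * Real.exp (-(η ^ 2 / 4) * L) * M := by
  have hbR : (1 : ℝ) ≤ b := by exact_mod_cast (by omega : 1 ≤ b)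
  have hkL : k * L ≤ w * L := Nat.mul_le_mul_right _ hkw
  have h4 : 4 ≤ (b ^ k) ^ L := by
    rw [← pow_mul]
    calc 4 = 2 ^ 2 := by norm_num
      _ ≤ 2 ^ (k * L) := Nat.pow_le_pow_right (by norm_num) (by nlinarith)
      _ ≤ b ^ (k * L) := Nat.pow_le_pow_left hb _
  have hcell : ∀ W : ℤ, (((range M).filter (fun m : ℕ => ⌊((b ^ k : ℕ) : ℝ) ^ L *
      Int.fract ((b : ℝ) ^ s * y + m * ((b : ℝ) ^ s * α))⌋ = W)).card : ℝ) ≤
      16 * M / ((b ^ k : ℕ) : ℝ) ^ L + 4 / ρ := by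
    intro W
    have h1 := cell ((b ^ k) ^ L) M h4 ((b : ℝ) ^ s * y) ((b : ℝ) ^ s * α) ρ hρ
      (fun u hu hu' p => h s hs u hu (lt_of_lt_of_le hu' (by
        rw [← pow_mul]
        exact Nat.pow_le_pow_right (by omega) hkL)) p) W
    rw [Nat.cast_pow] at h1
    exact h1
  have hD0 : (0 : ℝ) < ((b ^ k : ℕ) : ℝ) ^ L := by
    have : (0 : ℝ) < ((b ^ k : ℕ) : ℝ) := by exact_mod_cast Nat.pow_pos (by omega)
    positivity
  have h5 := window (b ^ k) L M (Nat.one_le_pow _ _ (by omega))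
    (fun m => (b : ℝ) ^ s * y + m * ((b : ℝ) ^ s * α)) _ (by positivity) hcell j hj η hη hη1
  refine h5.trans ?_
  have h6 : ((b ^ k : ℕ) : ℝ) ^ L * (16 * M / ((b ^ k : ℕ) : ℝ) ^ L + 4 / ρ) ≤ 17 * M := by
    have e1 : ((b ^ k : ℕ) : ℝ) ^ L * (16 * M / ((b ^ k : ℕ) : ℝ) ^ L + 4 / ρ) =
        16 * M + 4 / ρ * ((b ^ k : ℕ) : ℝ) ^ L := by
      field_simp
    rw [e1]
    have h7 : ((b ^ k : ℕ) : ℝ) ^ L ≤ (b : ℝ) ^ (w * L) := by
      push_cast
      rw [← pow_mul]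
      exact pow_le_pow_right₀ hbR hkL
    have h8 : 4 / ρ * ((b ^ k : ℕ) : ℝ) ^ L ≤ 4 / ρ * (b : ℝ) ^ (w * L) :=
      mul_le_mul_of_nonneg_left h7 (by positivity)
    linarith
  calc 2 * Real.exp (-(η ^ 2 / 4) * L) * ((b ^ k : ℕ) : ℝ) ^ L *
        (16 * M / ((b ^ k : ℕ) : ℝ) ^ L + 4 / ρ)
      = 2 * Real.exp (-(η ^ 2 / 4) * L) * (((b ^ k : ℕ) : ℝ) ^ L *
        (16 * M / ((b ^ k : ℕ) : ℝ) ^ L + 4 / ρ)) := by ring
    _ ≤ 2 * Real.exp (-(η ^ 2 / 4) * L) * (17 * M) :=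
        mul_le_mul_of_nonneg_left h6 (by positivity)
    _ = _ := by ring

lemma normal_of_not_bad (b w L M D : ℕ) (hL : 1 ≤ L) (α y η : ℝ) (m : ℕ) (hm : m < M)
    (h : ∀ k s j : ℕ, 1 ≤ k → k ≤ w → j < b ^ k → s ≤ D → m ∉ bad b L M α y η k j s) :
    NormalUpTo b w D η (w * L) (y + m * α) := by
  classical
  intro k s N j hk hkw hj hsN
  set f : ℕ → ℝ := fun p => if word b k p (y + m * α) = j then 1 else 0 with hf
  have h0 : ∀ p, 0 ≤ f p := by
    intro p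
    simp only [hf]
    split_ifs <;> norm_num
  have h1 : ∀ p, f p ≤ 1 := by
    intro p
    simp only [hf]
    split_ifs <;> norm_num
  have h2 := avg f h0 h1 L k s N hL (1 / (b : ℝ) ^ k) η (by
    intro u hu
    have h3 := h k (s + u) j hk hkw hj (by omega)
    unfold bad at h3
    rw [mem_filter, not_and, not_lt] at h3
    have h4 := h3 (mem_range.2 hm)
    have e1 : ∑ i ∈ range L, f (s + u + k * i) = ((((range L).filter (fun i =>
      ⌊((b ^ k : ℕ) : ℝ) * Int.fract (((b ^ k : ℕ) : ℝ) ^ i *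
        ((b : ℝ) ^ (s + u) * y + m * ((b : ℝ) ^ (s + u) * α)))⌋₊ = j)).card : ℕ) : ℝ) := by
      rw [Finset.card_filter]
      push_cast
      refine Finset.sum_congr rfl fun i _ => ?_
      simp only [hf, word_add]
      push_cast
      rw [show (b : ℝ) ^ (s + u) * (y + m * α) =
        (b : ℝ) ^ (s + u) * y + m * ((b : ℝ) ^ (s + u) * α) by ring]
    rw [e1, mul_one_div]
    push_cast at h4 ⊢
    exact h4)
  have e1 : ∑ u ∈ range N, f (s + u) =
      ((({i ∈ range N | word b k (s + i) (y + m * α) = j} : Finset ℕ).card : ℕ) : ℝ) := by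
    rw [Finset.card_filter]
    push_cast
    rfl
  rw [e1, mul_one_div] at h2
  refine h2.trans ?_
  have h4 : (k : ℝ) ≤ w := by exact_mod_cast hkw
  have h5 : (0 : ℝ) ≤ L := Nat.cast_nonneg L
  nlinarith

open Classical in
/-- **Most of the numbers are nearly normal.** -/
theorem most (b w L M D : ℕ) (hb : 2 ≤ b) (hL : 2 ≤ L) (α y ρ η : ℝ) (hρ : 0 < ρ)
    (hη : 0 < η) (hη1 : η ≤ 1)
    (h : ∀ s ≤ D, ∀ u : ℕ, 1 ≤ u → u < b ^ (w * L) → ∀ p : ℤ,
      ρ ≤ |(u : ℝ) * ((b : ℝ) ^ s * α) - p|)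
    (hM : 4 / ρ * (b : ℝ) ^ (w * L) ≤ M) :
    ((((range M).filter (fun m : ℕ => ¬ NormalUpTo b w D η (w * L) (y + m * α))).card : ℕ) : ℝ) ≤
      (w * b ^ w * (D + 1) : ℕ) * (34 * Real.exp (-(η ^ 2 / 4) * L) * M) := by
  set I : Finset (ℕ × ℕ × ℕ) := (Icc 1 w) ×ˢ (range (b ^ w)) ×ˢ (range (D + 1)) with hI
  have hsub : (range M).filter (fun m : ℕ => ¬ NormalUpTo b w D η (w * L) (y + m * α)) ⊆
      (I.filter (fun t => t.2.1 < b ^ t.1)).biUnion
        (fun t => bad b L M α y η t.1 t.2.1 t.2.2) := by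
    intro m hm
    rw [mem_filter, mem_range] at hm
    rw [mem_biUnion]
    by_contra hcon
    push Not at hcon
    refine hm.2 (normal_of_not_bad b w L M D (by omega) α y η m hm.1 ?_)
    intro k s j hk hkw hj hs
    refine hcon (k, j, s) ?_
    rw [mem_filter, hI, mem_product, mem_product, mem_Icc, mem_range, mem_range]
    exact ⟨⟨⟨hk, hkw⟩, lt_of_lt_of_le hj (Nat.pow_le_pow_right (by omega) hkw),
      Nat.lt_succ_of_le hs⟩, hj⟩
  have h1 := card_le_card hsub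
  have h2 := card_biUnion_le (s := I.filter (fun t => t.2.1 < b ^ t.1))
    (t := fun t => bad b L M α y η t.1 t.2.1 t.2.2)
  have h3 : ((((range M).filter (fun m : ℕ =>
      ¬ NormalUpTo b w D η (w * L) (y + m * α))).card : ℕ) : ℝ) ≤
      ∑ t ∈ I.filter (fun t => t.2.1 < b ^ t.1),
        ((bad b L M α y η t.1 t.2.1 t.2.2).card : ℝ) := by
    exact_mod_cast h1.trans h2
  refine h3.trans ?_
  have hc0 : 0 ≤ 34 * Real.exp (-(η ^ 2 / 4) * L) * M := by positivity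
  calc ∑ t ∈ I.filter (fun t => t.2.1 < b ^ t.1), ((bad b L M α y η t.1 t.2.1 t.2.2).card : ℝ)
      ≤ ∑ _t ∈ I.filter (fun t => t.2.1 < b ^ t.1),
        34 * Real.exp (-(η ^ 2 / 4) * L) * M := by
        refine sum_le_sum fun t ht => ?_
        rw [mem_filter, hI, mem_product, mem_product, mem_Icc, mem_range, mem_range] at ht
        exact bad_card b w L M D hb hL α y ρ η hρ hη hη1 h hM _ _ _ ht.1.1.1 ht.1.1.2 ht.2
          (by omega)
    _ = ((I.filter (fun t => t.2.1 < b ^ t.1)).card : ℝ) *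
        (34 * Real.exp (-(η ^ 2 / 4) * L) * M) := by
        rw [sum_const, nsmul_eq_mul]
    _ ≤ _ := by
        apply mul_le_mul_of_nonneg_right _ hc0
        have h4 : (I.filter (fun t => t.2.1 < b ^ t.1)).card ≤ w * b ^ w * (D + 1) := by
          refine (card_filter_le _ _).trans ?_
          rw [hI, card_product, card_product, Nat.card_Icc, card_range, card_range]
          simp only [Nat.add_sub_cancel]
          rw [mul_assoc]
        exact_mod_cast h4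

end Pool.Agent.H609.GF
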