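import Pool.Agent.H609.GF.Key
import Pool.Agent.H609.GF.Nor

/-!
# The digits of the multiples of the values of power series at `b ^ (-n)`
-/

set_option autoImplicit false

namespace Pool.Agent.H609.GF

open Finset Real Filter Topology

lemma NormalUpTo.mono {b w w' D : ℕ} {ε ε' E E' z : ℝ} (h : NormalUpTo b w' D ε' E' z)
    (hw : w ≤ w') (hε : ε' ≤ ε) (hE : E' ≤ E) : NormalUpTo b w D ε E z := by
  intro k s N j hk hkw hj hsN
  refine (h k s N j hk (hkw.trans hw) hj hsN).trans ?_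
  have : (0 : ℝ) ≤ N := Nat.cast_nonneg N
  nlinarith

lemma ev_exp (K κ : ℝ) (hκ : 0 < κ) : ∀ᶠ n : ℕ in atTop, K * ((n : ℝ) ^ 2 + 1) ≤ exp (κ * n) := by
  have h1 : (fun x : ℝ => x ^ 2) =o[atTop] fun x => exp (κ * x) :=
    isLittleO_pow_exp_pos_mul_atTop 2 hκ
  have h2 : (fun _ : ℝ => (1 : ℝ)) =o[atTop] fun x => exp (κ * x) := by
    have := isLittleO_pow_exp_pos_mul_atTop 0 hκ
    simpa using this
  have h3 := (h1.add h2).def (show 0 < 1 / (|K| + 1) by positivity)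
  have h4 := tendsto_natCast_atTop_atTop.eventually h3
  filter_upwards [h4] with n hn
  rw [Real.norm_of_nonneg (by positivity), Real.norm_of_nonneg (by positivity)] at hn
  have hK : K ≤ |K| := le_abs_self K
  have hK0 := abs_nonneg K
  calc K * ((n : ℝ) ^ 2 + 1) ≤ (|K| + 1) * ((n : ℝ) ^ 2 + 1) :=
        mul_le_mul_of_nonneg_right (by linarith) (by positivity)
    _ ≤ (|K| + 1) * (1 / (|K| + 1) * exp (κ * n)) := mul_le_mul_of_nonneg_left hn (by positivity)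
    _ = _ := by field_simp

/-- the hypothesis of the theorem on most of the multiples -/
lemma spread {a : ℕ → ℚ} {C g : ℕ} (h : GS a C g) (b : ℕ) (hb : 2 ≤ b) (n D ℓ : ℕ)
    (hn : 8 * (C * (2 * g + 5) + 2) ≤ n) (hD : (D : ℝ) ≤ 1 / (16 * (C + 1)) * (n : ℝ) ^ 2)
    (hl : 4 * ℓ ≤ n) : ∀ s ≤ D, ∀ u : ℕ, 1 ≤ u → u < b ^ ℓ → ∀ p : ℤ,
      ((b : ℝ) ^ ((g + 2) * n))⁻¹ ≤ |(u : ℝ) * ((b : ℝ) ^ s * val a b n) - p| := by
  intro s hs u hu hul p
  have hn1 : 1 ≤ n := by omega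
  have hn0 : (0 : ℝ) < n := by exact_mod_cast hn1
  have hdm := Nat.div_add_mod s n
  have hml := Nat.mod_lt s hn1
  refine key h b hb n (s / n + 1) ℓ s u ?_ ?_ ?_ hu hul.le hl p
  · -- `8 C (s / n) ≤ n / 2`
    have h1 : ((s / n : ℕ) : ℝ) ≤ (n : ℝ) / (16 * (C + 1)) := by
      have h2 : ((s / n : ℕ) : ℝ) ≤ (s : ℝ) / n := Nat.cast_div_le
      refine h2.trans ?_
      rw [div_le_div_iff₀ hn0 (by positivity)]
      have h3 : (s : ℝ) ≤ 1 / (16 * (C + 1)) * (n : ℝ) ^ 2 :=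
        le_trans (by exact_mod_cast hs) hD
      have h4 : (s : ℝ) * (16 * (C + 1)) ≤
          1 / (16 * (C + 1)) * (n : ℝ) ^ 2 * (16 * (C + 1)) :=
        mul_le_mul_of_nonneg_right h3 (by positivity)
      have h5 : 1 / (16 * ((C : ℝ) + 1)) * (n : ℝ) ^ 2 * (16 * (C + 1)) = n * n := by
        field_simp
      linarith
    have h6 : 16 * C * (s / n) ≤ n := by
      have h7 : (16 : ℝ) * C * ((s / n : ℕ) : ℝ) ≤ n := by
        calc (16 : ℝ) * C * ((s / n : ℕ) : ℝ) ≤ 16 * C * ((n : ℝ) / (16 * (C + 1))) :=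
              mul_le_mul_of_nonneg_left h1 (by positivity)
          _ = n * (C / (C + 1)) := by field_simp
          _ ≤ n * 1 := by
              apply mul_le_mul_of_nonneg_left _ hn0.le
              rw [div_le_one (by positivity)]
              linarith
          _ = n := mul_one _
      exact_mod_cast h7
    have e1 : 4 * (C * (2 * (s / n + 1 + g) + 3) + 2) =
        8 * (C * (s / n)) + 4 * (C * (2 * g + 5) + 2) := by ring
    have e2 : 16 * C * (s / n) = 2 * (8 * (C * (s / n))) := by ring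
    rw [e1]
    omega
  · rw [Nat.mul_add, Nat.mul_one]
    omega
  · rw [Nat.mul_add, Nat.mul_one]
    omega

open Classical in
/-- **Most multiples of the values of power series at `b ^ (-n)`.** -/
theorem main {a : ℕ → ℚ} {C g : ℕ} (h : GS a C g) (b : ℕ) (hb : 2 ≤ b) (w : ℕ) (ε : ℝ)
    (hε : 0 < ε) : ∃ κ : ℝ, 0 < κ ∧ ∃ n₀ : ℕ, ∀ n : ℕ, n₀ ≤ n → ∀ D M : ℕ,
      (D : ℝ) ≤ 1 / (16 * (C + 1)) * (n : ℝ) ^ 2 → b ^ ((g + 3) * n) ≤ M → ∀ y : ℝ,
      ((((range M).filter (fun m : ℕ =>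
        ¬ NormalUpTo b w D ε (ε * n) (y + m * val a b n))).card : ℕ) : ℝ) ≤
        M * exp (-(κ * n)) := by
  set w' : ℕ := w + 1 with hw'
  set η : ℝ := min ε 1 with hη
  set δ : ℝ := min ε (1 / 4) / w' with hδ
  have hw0 : (0 : ℝ) < w' := by rw [hw']; positivity
  have hη0 : 0 < η := lt_min hε one_pos
  have hη1 : η ≤ 1 := min_le_right _ _
  have hm0 : 0 < min ε (1 / 4) := lt_min hε (by norm_num)
  have hδ0 : 0 < δ := by positivity
  have hδw : w' * δ = min ε (1 / 4) := by rw [hδ]; field_simp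
  set κ : ℝ := η ^ 2 / 8 * δ with hκ
  have hκ0 : 0 < κ := by positivity
  obtain ⟨n1, hn1⟩ := Filter.eventually_atTop.1
    (ev_exp ((w' * b ^ w' : ℕ) * (34 * exp (η ^ 2 / 4))) κ hκ0)
  obtain ⟨n2, hn2⟩ := exists_nat_gt (3 / δ)
  refine ⟨κ, hκ0, max n1 (max n2 (8 * (C * (2 * g + 5) + 2))), fun n hn D M hD hM y => ?_⟩
  have hnn1 : n1 ≤ n := le_of_max_le_left hn
  have hnn2 : n2 ≤ n := le_of_max_le_left (le_of_max_le_right hn)
  have hnn3 : 8 * (C * (2 * g + 5) + 2) ≤ n := le_of_max_le_right (le_of_max_le_right hn)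
  have hn0 : (0 : ℝ) < n := by exact_mod_cast (by omega : 0 < n)
  have hn3 : 3 ≤ δ * n := by
    have h1 : 3 / δ < n := lt_of_lt_of_le hn2 (by exact_mod_cast hnn2)
    rw [div_lt_iff₀ hδ0] at h1
    linarith
  set L : ℕ := ⌊δ * n⌋₊ with hL
  have hL1 : (L : ℝ) ≤ δ * n := Nat.floor_le (by positivity)
  have hL2 : δ * n < L + 1 := Nat.lt_floor_add_one _
  have hLL : 2 ≤ L := by
    have : (2 : ℝ) < L + 0 := by linarith
    have : (2 : ℝ) < L := by linarith
    exact_mod_cast this.le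
  have hwL : (w' : ℝ) * L ≤ min ε (1 / 4) * n := by
    rw [← hδw, mul_assoc]
    exact mul_le_mul_of_nonneg_left hL1 hw0.le
  have hwL4 : 4 * (w' * L) ≤ n := by
    have h1 : (4 : ℝ) * (w' * L) ≤ n := by
      have h2 : min ε (1 / 4) * n ≤ 1 / 4 * n :=
        mul_le_mul_of_nonneg_right (min_le_right _ _) hn0.le
      linarith
    exact_mod_cast h1
  have hb0 : (0 : ℝ) < b := by exact_mod_cast (by omega : 0 < b)
  have hb1 : (1 : ℝ) ≤ b := by exact_mod_cast (by omega : 1 ≤ b)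
  have hbR : (2 : ℝ) ≤ b := by exact_mod_cast hb
  have hspread := spread h b hb n D (w' * L) hnn3 hD hwL4
  have hM' : 4 / ((b : ℝ) ^ ((g + 2) * n))⁻¹ * (b : ℝ) ^ (w' * L) ≤ M := by
    have h1 : ((b ^ ((g + 3) * n) : ℕ) : ℝ) ≤ M := by exact_mod_cast hM
    refine le_trans ?_ h1
    rw [div_inv_eq_mul]
    push_cast
    have h2 : (4 : ℝ) ≤ (b : ℝ) ^ 2 := by nlinarith
    calc 4 * (b : ℝ) ^ ((g + 2) * n) * (b : ℝ) ^ (w' * L) ≤
        (b : ℝ) ^ 2 * (b : ℝ) ^ ((g + 2) * n) * (b : ℝ) ^ (w' * L) := by gcongr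
      _ = (b : ℝ) ^ (2 + (g + 2) * n + w' * L) := by rw [pow_add, pow_add]
      _ ≤ _ := by
          refine pow_le_pow_right₀ hb1 ?_
          have e1 : (g + 3) * n = (g + 2) * n + n := by ring
          rw [e1]
          omega
  have hmost := most b w' L M D hb hLL (val a b n) y _ η (by positivity) hη0 hη1 hspread hM'
  have hsub : ((((range M).filter (fun m : ℕ =>
        ¬ NormalUpTo b w D ε (ε * n) (y + m * val a b n))).card : ℕ) : ℝ) ≤
      ((((range M).filter (fun m : ℕ =>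
        ¬ NormalUpTo b w' D η (w' * L) (y + m * val a b n))).card : ℕ) : ℝ) := by
    refine Nat.cast_le.2 (card_le_card fun m hm => ?_)
    rw [mem_filter] at hm ⊢
    refine ⟨hm.1, fun hcon => hm.2 (hcon.mono (by omega) (min_le_left _ _) (hwL.trans ?_))⟩
    exact mul_le_mul_of_nonneg_right (min_le_left _ _) hn0.le
  refine hsub.trans (hmost.trans ?_)
  have hMR : (0 : ℝ) ≤ M := Nat.cast_nonneg M
  have hDn : (D : ℝ) + 1 ≤ (n : ℝ) ^ 2 + 1 := by
    have h1 : 1 / (16 * ((C : ℝ) + 1)) ≤ 1 := by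
      rw [div_le_one (by positivity)]
      have : (0 : ℝ) ≤ C := Nat.cast_nonneg C
      linarith
    nlinarith [sq_nonneg (n : ℝ)]
  have hexp : exp (-(η ^ 2 / 4) * L) ≤ exp (η ^ 2 / 4) * (exp (-(κ * n)) * exp (-(κ * n))) := by
    rw [← exp_add, ← exp_add]
    apply exp_le_exp.2
    have h1 : η ^ 2 / 4 * (δ * n) ≤ η ^ 2 / 4 * (L + 1) :=
      mul_le_mul_of_nonneg_left hL2.le (by positivity)
    have h2 : κ * n + κ * n = η ^ 2 / 4 * (δ * n) := by rw [hκ]; ring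
    linarith
  have h1 := hn1 n hnn1
  calc ((w' * b ^ w' * (D + 1) : ℕ) : ℝ) * (34 * exp (-(η ^ 2 / 4) * L) * M)
      = (w' * b ^ w' : ℕ) * ((D : ℝ) + 1) * (34 * exp (-(η ^ 2 / 4) * L) * M) := by
        push_cast
        ring
    _ ≤ (w' * b ^ w' : ℕ) * ((n : ℝ) ^ 2 + 1) *
        (34 * (exp (η ^ 2 / 4) * (exp (-(κ * n)) * exp (-(κ * n)))) * M) := by gcongr
    _ = ((w' * b ^ w' : ℕ) * (34 * exp (η ^ 2 / 4)) * ((n : ℝ) ^ 2 + 1)) *
        (exp (-(κ * n)) * exp (-(κ * n))) * M := by ring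
    _ ≤ exp (κ * n) * (exp (-(κ * n)) * exp (-(κ * n))) * M := by gcongr
    _ = M * exp (-(κ * n)) := by
        have : exp (κ * n) * exp (-(κ * n)) = 1 := by
          rw [← exp_add, add_neg_cancel, exp_zero]
        calc exp (κ * n) * (exp (-(κ * n)) * exp (-(κ * n))) * M =
            (exp (κ * n) * exp (-(κ * n))) * exp (-(κ * n)) * M := by ring
          _ = _ := by rw [this]; ring

end Pool.Agent.H609.GF
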