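import Mathlib

/-!
# Power series with coefficients and denominators of geometric growth
-/

set_option autoImplicit false

namespace Pool.Agent.H609.GF

open Finset PowerSeries

/-- the coefficients and their denominators grow at most geometrically -/
def Gr (C : ℕ) (f : ℚ⟦X⟧) : Prop :=
  ∀ k, |coeff k f| ≤ (C : ℚ) ^ (k + 1) ∧ ∃ z : ℤ, (C : ℚ) ^ (k + 1) * coeff k f = z

lemma Gr.of_dvd {C M : ℕ} (hM : 1 ≤ M) (h : C ∣ M) {f : ℚ⟦X⟧} (hf : Gr C f) : Gr M f := by
  obtain ⟨m, rfl⟩ := h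
  have hm : 1 ≤ m := Nat.pos_of_ne_zero fun h0 => by rw [h0] at hM; omega
  have hmQ : (1 : ℚ) ≤ m := by exact_mod_cast hm
  intro k
  obtain ⟨h1, z, hz⟩ := hf k
  constructor
  · refine h1.trans ?_
    push_cast
    rw [mul_pow]
    have h2 : (0 : ℚ) ≤ (C : ℚ) ^ (k + 1) := by positivity
    have h3 : (1 : ℚ) ≤ (m : ℚ) ^ (k + 1) := one_le_pow₀ hmQ
    nlinarith
  · refine ⟨m ^ (k + 1) * z, ?_⟩
    push_cast
    rw [← hz, mul_pow]
    ring

lemma Gr.zero (C : ℕ) : Gr C (0 : ℚ⟦X⟧) := by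
  intro k
  rw [map_zero]
  exact ⟨by rw [abs_zero]; positivity, 0, by simp⟩

/-- the algebra of the series with geometric growth -/
def SG : Subalgebra ℚ ℚ⟦X⟧ where
  carrier := {f | ∃ C : ℕ, 1 ≤ C ∧ Gr C f}
  mul_mem' := by
    rintro a b ⟨C, hC, ha⟩ ⟨M, hM, hb⟩
    set N := C * M with hN
    have hN1 : 1 ≤ N := Nat.mul_pos hC hM
    have hNQ : (1 : ℚ) ≤ N := by exact_mod_cast hN1
    have ha' := Gr.of_dvd hN1 (dvd_mul_right C M) ha
    have hb' := Gr.of_dvd hN1 (dvd_mul_left M C) hb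
    refine ⟨2 * N ^ 2, Nat.mul_pos (by norm_num) (Nat.pow_pos hN1), fun k => ?_⟩
    rw [coeff_mul]
    constructor
    · refine (abs_sum_le_sum_abs _ _).trans ?_
      have h1 : ∀ p ∈ antidiagonal k, |coeff p.1 a * coeff p.2 b| ≤ (N : ℚ) ^ (2 * k + 2) := by
        intro p hp
        rw [HasAntidiagonal.mem_antidiagonal] at hp
        rw [abs_mul]
        calc |coeff p.1 a| * |coeff p.2 b| ≤ (N : ℚ) ^ (p.1 + 1) * (N : ℚ) ^ (p.2 + 1) :=
              mul_le_mul (ha' _).1 (hb' _).1 (abs_nonneg _) (by positivity)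
          _ = (N : ℚ) ^ (k + 2) := by
              rw [← pow_add]
              congr 1
              omega
          _ ≤ _ := pow_le_pow_right₀ hNQ (by omega)
      refine (sum_le_sum h1).trans ?_
      rw [sum_const, Nat.card_antidiagonal, nsmul_eq_mul]
      have h2 : ((k + 1 : ℕ) : ℚ) ≤ 2 ^ (k + 1) := by
        exact_mod_cast (Nat.lt_two_pow_self (n := k + 1)).le
      push_cast at h2 ⊢
      have e1 : (2 * (N : ℚ) ^ 2) ^ (k + 1) = 2 ^ (k + 1) * (N : ℚ) ^ (2 * k + 2) := by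
        rw [mul_pow, ← pow_mul]
        congr 2
      rw [e1]
      exact mul_le_mul_of_nonneg_right h2 (by positivity)
    · have h1 : ∀ p ∈ antidiagonal k, ∃ z : ℤ,
          ((2 * N ^ 2 : ℕ) : ℚ) ^ (k + 1) * (coeff p.1 a * coeff p.2 b) = z := by
        intro p hp
        rw [HasAntidiagonal.mem_antidiagonal] at hp
        obtain ⟨x, hx⟩ := (ha' p.1).2
        obtain ⟨y, hy⟩ := (hb' p.2).2
        refine ⟨2 ^ (k + 1) * N ^ k * x * y, ?_⟩
        push_cast
        rw [← hx, ← hy]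
        have e1 : (2 * (N : ℚ) ^ 2) ^ (k + 1) =
            2 ^ (k + 1) * ((N : ℚ) ^ k * (N : ℚ) ^ (p.1 + 1) * (N : ℚ) ^ (p.2 + 1)) := by
          rw [mul_pow, ← pow_mul, ← pow_add, ← pow_add]
          congr 2
          omega
        rw [e1]
        ring
      choose! z hz using h1
      refine ⟨∑ p ∈ antidiagonal k, z p, ?_⟩
      rw [mul_sum]
      push_cast at hz ⊢
      exact sum_congr rfl hz
  add_mem' := by
    rintro a b ⟨C, hC, ha⟩ ⟨M, hM, hb⟩
    set N := C * M with hN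
    have hN1 : 1 ≤ N := Nat.mul_pos hC hM
    have ha' := Gr.of_dvd hN1 (dvd_mul_right C M) ha
    have hb' := Gr.of_dvd hN1 (dvd_mul_left M C) hb
    refine ⟨2 * N, by omega, fun k => ?_⟩
    rw [map_add]
    constructor
    · have h1 := (ha' k).1
      have h2 := (hb' k).1
      have h3 := abs_add_le (coeff k a) (coeff k b)
      push_cast
      rw [mul_pow]
      have h4 : (2 : ℚ) ≤ 2 ^ (k + 1) := by
        have : (1 : ℚ) ≤ 2 ^ k := one_le_pow₀ (by norm_num)
        rw [pow_succ]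
        linarith
      have h5 : (0 : ℚ) ≤ (N : ℚ) ^ (k + 1) := by positivity
      nlinarith
    · obtain ⟨x, hx⟩ := (ha' k).2
      obtain ⟨y, hy⟩ := (hb' k).2
      refine ⟨2 ^ (k + 1) * (x + y), ?_⟩
      push_cast
      rw [← hx, ← hy, mul_pow]
      ring
  algebraMap_mem' := by
    intro r
    have hden : (r.den : ℚ) ≠ 0 := by exact_mod_cast r.den_nz
    refine ⟨r.den * (r.num.natAbs + 1), Nat.mul_pos r.den_pos (Nat.succ_pos _), fun k => ?_⟩
    have h0 : (algebraMap ℚ ℚ⟦X⟧) r = C r := rfl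
    rw [h0, coeff_C]
    split_ifs with hk
    · subst hk
      have hr : (r.den : ℚ) * r = r.num := by
        rw [mul_comm]
        exact Rat.mul_den_eq_num r
      have hd1 : (1 : ℚ) ≤ r.den := by exact_mod_cast r.den_pos
      constructor
      · have h1 : |r| ≤ |(r.num : ℚ)| := by
          rw [← hr, abs_mul, Nat.abs_cast]
          nlinarith [abs_nonneg r]
        have h2 : |(r.num : ℚ)| = (r.num.natAbs : ℚ) := by
          rw [Nat.cast_natAbs]
          push_cast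
          rfl
        rw [h2] at h1
        push_cast
        have h3 : (0 : ℚ) ≤ (r.num.natAbs : ℚ) := Nat.cast_nonneg _
        rw [pow_one]
        nlinarith
      · refine ⟨(r.num.natAbs + 1) * r.num, ?_⟩
        have h2 : (r.num.natAbs : ℚ) = |(r.num : ℚ)| := by
          rw [Nat.cast_natAbs]
          push_cast
          rfl
        push_cast
        rw [pow_one, h2, ← hr]
        ring
    · exact ⟨by rw [abs_zero]; positivity, 0, by simp⟩

lemma SG_common (s : Finset ℕ) (c : ℕ → ℚ⟦X⟧) (hc : ∀ k ∈ s, c k ∈ SG) :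
    ∃ N : ℕ, 1 ≤ N ∧ ∀ k ∈ s, Gr N (c k) := by
  classical
  induction s using Finset.induction_on with
  | empty => exact ⟨1, le_rfl, by simp⟩
  | insert a s ha ih =>
    obtain ⟨N, hN, h⟩ := ih fun k hk => hc k (Finset.mem_insert_of_mem hk)
    obtain ⟨M, hM, h'⟩ := hc a (Finset.mem_insert_self _ _)
    have hNM : 1 ≤ N * M := Nat.mul_pos hN hM
    refine ⟨N * M, hNM, fun k hk => ?_⟩
    rcases Finset.mem_insert.1 hk with rfl | hk
    · exact Gr.of_dvd hNM (dvd_mul_left _ _) h'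
    · exact Gr.of_dvd hNM (dvd_mul_right _ _) (h k hk)

lemma SG_X : (X : ℚ⟦X⟧) ∈ SG := by
  refine ⟨1, le_rfl, fun i => ?_⟩
  rw [coeff_X]
  split_ifs
  · exact ⟨by simp, 1, by simp⟩
  · exact ⟨by simp, 0, by simp⟩

lemma SG_of_X_pow_mul {f : ℚ⟦X⟧} (e : ℕ) (h : X ^ e * f ∈ SG) : f ∈ SG := by
  obtain ⟨C, hC, h⟩ := h
  have hCQ : (1 : ℚ) ≤ C := by exact_mod_cast hC
  refine ⟨C ^ (e + 1), Nat.one_le_pow _ _ hC, fun i => ?_⟩
  have h1 := h (i + e)
  rw [coeff_X_pow_mul] at h1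
  push_cast
  rw [← pow_mul]
  have e1 : (e + 1) * (i + 1) = e * i + (i + e + 1) := by ring
  constructor
  · exact h1.1.trans (pow_le_pow_right₀ hCQ (by omega))
  · obtain ⟨z, hz⟩ := h1.2
    refine ⟨C ^ (e * i) * z, ?_⟩
    push_cast
    rw [e1, pow_add, mul_assoc, hz]

lemma SG_poly (P : Polynomial ℚ) : (P : ℚ⟦X⟧) ∈ SG := by
  have hp : Polynomial.aeval (X : ℚ⟦X⟧) P = (P : ℚ⟦X⟧) := by
    rw [Polynomial.aeval_def, Polynomial.eval₂_eq_sum_range]
    conv_rhs => rw [P.as_sum_range_C_mul_X_pow]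
    rw [← Polynomial.coeToPowerSeries.ringHom_apply, map_sum]
    refine Finset.sum_congr rfl fun i _ => ?_
    rw [map_mul, map_pow, Polynomial.coeToPowerSeries.ringHom_apply,
      Polynomial.coeToPowerSeries.ringHom_apply, Polynomial.coe_C, Polynomial.coe_X]
    rfl
  rw [← hp]
  exact (Algebra.adjoin_le (by simpa using SG_X) :
    Algebra.adjoin ℚ {(X : ℚ⟦X⟧)} ≤ SG) (Polynomial.aeval_mem_adjoin_singleton ℚ X)

/-! ### denominators of contractions -/

/-- weighted integrality of the first coefficients -/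
def Wt (N α c L : ℕ) (f : ℚ⟦X⟧) : Prop :=
  ∀ i < L, ∃ z : ℤ, (N : ℚ) ^ (α * i + c) * coeff i f = z

lemma Wt.mono {N α c c' L : ℕ} (h : c ≤ c') {f : ℚ⟦X⟧} (hf : Wt N α c L f) : Wt N α c' L f := by
  intro i hi
  obtain ⟨z, hz⟩ := hf i hi
  refine ⟨N ^ (c' - c) * z, ?_⟩
  push_cast
  rw [← hz, ← mul_assoc, ← pow_add]
  congr 2
  omega

lemma Wt.mul {N α c c' L : ℕ} {f g : ℚ⟦X⟧} (hf : Wt N α c L f) (hg : Wt N α c' L g) :
    Wt N α (c + c') L (f * g) := by
  intro i hi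
  rw [coeff_mul, mul_sum]
  have h1 : ∀ p ∈ antidiagonal i, ∃ z : ℤ,
      (N : ℚ) ^ (α * i + (c + c')) * (coeff p.1 f * coeff p.2 g) = z := by
    intro p hp
    rw [HasAntidiagonal.mem_antidiagonal] at hp
    obtain ⟨x, hx⟩ := hf p.1 (by omega)
    obtain ⟨y, hy⟩ := hg p.2 (by omega)
    refine ⟨x * y, ?_⟩
    push_cast
    rw [← hx, ← hy, ← hp]
    have e1 : α * (p.1 + p.2) + (c + c') = (α * p.1 + c) + (α * p.2 + c') := by ring
    rw [e1, pow_add]
    ring
  choose! z hz using h1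
  refine ⟨∑ p ∈ antidiagonal i, z p, ?_⟩
  push_cast
  exact sum_congr rfl hz

lemma Wt.add {N α c L : ℕ} {f g : ℚ⟦X⟧} (hf : Wt N α c L f) (hg : Wt N α c L g) :
    Wt N α c L (f + g) := by
  intro i hi
  obtain ⟨x, hx⟩ := hf i hi
  obtain ⟨y, hy⟩ := hg i hi
  refine ⟨x + y, ?_⟩
  rw [map_add, mul_add, hx, hy]
  push_cast
  rfl

lemma Wt.zero (N α c L : ℕ) : Wt N α c L 0 := fun i _ => ⟨0, by simp⟩

lemma Wt.sum {N α c L : ℕ} {s : Finset ℕ} {f : ℕ → ℚ⟦X⟧} (h : ∀ k ∈ s, Wt N α c L (f k)) :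
    Wt N α c L (∑ k ∈ s, f k) := by
  classical
  induction s using Finset.induction_on with
  | empty => simpa using Wt.zero N α c L
  | insert a s ha ih =>
    rw [sum_insert ha]
    exact (h a (mem_insert_self _ _)).add (ih fun k hk => h k (mem_insert_of_mem hk))

lemma Wt.one (N α L : ℕ) : Wt N α 0 L 1 := by
  intro i _
  rw [coeff_one]
  split_ifs with h
  · subst h
    exact ⟨1, by simp⟩
  · exact ⟨0, by simp⟩

lemma Wt.pow {N α L : ℕ} {f : ℚ⟦X⟧} (hf : Wt N α 1 L f) (k : ℕ) : Wt N α k L (f ^ k) := by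
  induction k with
  | zero => rw [pow_zero]; exact Wt.one _ _ _
  | succ k ih => rw [pow_succ]; exact ih.mul hf

lemma Gr.wt {N α L : ℕ} (hα : 1 ≤ α) {f : ℚ⟦X⟧} (hf : Gr N f) : Wt N α 1 L f := by
  intro i _
  obtain ⟨z, hz⟩ := (hf i).2
  refine ⟨N ^ ((α - 1) * i) * z, ?_⟩
  push_cast
  rw [← hz, ← mul_assoc, ← pow_add]
  congr 2
  obtain ⟨a, rfl⟩ : ∃ a, α = a + 1 := ⟨α - 1, by omega⟩
  rw [Nat.add_sub_cancel]
  ring

lemma contract_den {N d : ℕ} {V β : ℚ⟦X⟧} (Φ : Polynomial ℚ⟦X⟧) (hd : Φ.natDegree ≤ d)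
    (hβ : Gr N β) (hΦ : ∀ k, Gr N (Φ.coeff k)) (h : V = β + X * Φ.eval V) (L : ℕ) :
    Wt N (d + 1) 1 L V := by
  induction L with
  | zero => intro i hi; omega
  | succ L ih =>
    have hE : Wt N (d + 1) (d + 1) L (Φ.eval V) := by
      rw [Polynomial.eval_eq_sum_range]
      refine Wt.sum fun k hk => ?_
      rw [mem_range] at hk
      exact (((hΦ k).wt (by omega)).mul (ih.pow k)).mono (by omega)
    intro i hi
    rw [h, map_add, mul_add]
    obtain ⟨x, hx⟩ := hβ.wt (α := d + 1) (L := L + 1) (by omega) i hi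
    cases i with
    | zero =>
      refine ⟨x, ?_⟩
      rw [coeff_zero_X_mul, hx]
      ring
    | succ i =>
      obtain ⟨y, hy⟩ := hE i (by omega)
      refine ⟨x + N * y, ?_⟩
      rw [coeff_succ_X_mul, hx]
      push_cast
      rw [← hy, ← mul_assoc, ← pow_succ']
      congr 2

/-! ### size of contractions -/

/-- partial norms -/
noncomputable def nm (t : ℚ) (L : ℕ) (f : ℚ⟦X⟧) : ℚ := ∑ k ∈ range L, |coeff k f| * t ^ k

lemma nm_nonneg {t : ℚ} (ht : 0 ≤ t) (L : ℕ) (f : ℚ⟦X⟧) : 0 ≤ nm t L f :=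
  sum_nonneg fun _ _ => by positivity

lemma nm_add {t : ℚ} (ht : 0 ≤ t) (L : ℕ) (f g : ℚ⟦X⟧) :
    nm t L (f + g) ≤ nm t L f + nm t L g := by
  unfold nm
  rw [← sum_add_distrib]
  refine sum_le_sum fun k _ => ?_
  rw [map_add, ← add_mul]
  exact mul_le_mul_of_nonneg_right (abs_add_le _ _) (by positivity)

lemma nm_mul {t : ℚ} (ht : 0 ≤ t) (L : ℕ) (f g : ℚ⟦X⟧) :
    nm t L (f * g) ≤ nm t L f * nm t L g := by
  classical
  unfold nm
  have h1 : ∀ k ∈ range L, |coeff k (f * g)| * t ^ k ≤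
      ∑ p ∈ antidiagonal k, (|coeff p.1 f| * t ^ p.1) * (|coeff p.2 g| * t ^ p.2) := by
    intro k _
    rw [coeff_mul]
    refine (mul_le_mul_of_nonneg_right (abs_sum_le_sum_abs _ _) (by positivity)).trans
      (le_of_eq ?_)
    rw [sum_mul]
    refine sum_congr rfl fun p hp => ?_
    rw [HasAntidiagonal.mem_antidiagonal] at hp
    rw [abs_mul, ← hp, pow_add]
    ring
  refine (sum_le_sum h1).trans ?_
  rw [sum_mul_sum, ← sum_product']
  have h2 : ∑ k ∈ range L, ∑ p ∈ antidiagonal k,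
      (|coeff p.1 f| * t ^ p.1) * (|coeff p.2 g| * t ^ p.2) =
      ∑ p ∈ (range L ×ˢ range L).filter (fun p => p.1 + p.2 < L),
        (|coeff p.1 f| * t ^ p.1) * (|coeff p.2 g| * t ^ p.2) := by
    rw [← sum_fiberwise_of_maps_to (s := (range L ×ˢ range L).filter fun p => p.1 + p.2 < L)
      (t := range L) (g := fun p => p.1 + p.2)]
    · refine sum_congr rfl fun k hk => sum_congr ?_ fun _ _ => rfl
      ext ⟨i, j⟩
      rw [mem_range] at hk
      simp only [HasAntidiagonal.mem_antidiagonal, mem_filter, mem_product, mem_range]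
      omega
    · intro p hp
      rw [mem_filter] at hp
      exact mem_range.2 hp.2
  rw [h2]
  exact sum_le_sum_of_subset_of_nonneg (filter_subset _ _) fun _ _ _ => by positivity

lemma nm_one {t : ℚ} (ht : 0 ≤ t) (L : ℕ) : nm t L 1 ≤ 1 := by
  unfold nm
  rcases Nat.eq_zero_or_pos L with h | h
  · subst h
    simp
  · rw [sum_eq_single_of_mem 0 (mem_range.2 h)]
    · simp
    · intro k _ hk
      rw [coeff_one, if_neg hk]
      simp

lemma nm_pow {t : ℚ} (ht : 0 ≤ t) (L : ℕ) (f : ℚ⟦X⟧) (j : ℕ) :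
    nm t L (f ^ j) ≤ nm t L f ^ j := by
  induction j with
  | zero => simpa using nm_one ht L
  | succ j ih =>
    rw [pow_succ, pow_succ]
    exact (nm_mul ht L _ _).trans (mul_le_mul_of_nonneg_right ih (nm_nonneg ht L f))

lemma nm_sum {t : ℚ} (ht : 0 ≤ t) (s : Finset ℕ) (L : ℕ) (f : ℕ → ℚ⟦X⟧) :
    nm t L (∑ i ∈ s, f i) ≤ ∑ i ∈ s, nm t L (f i) := by
  classical
  induction s using Finset.induction_on with
  | empty => simp [nm]
  | insert a s ha ih =>
    rw [sum_insert ha, sum_insert ha]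
    exact (nm_add ht _ _ _).trans (add_le_add le_rfl ih)

lemma nm_X_mul (t : ℚ) (L : ℕ) (f : ℚ⟦X⟧) : nm t (L + 1) (X * f) = t * nm t L f := by
  unfold nm
  rw [sum_range_succ', coeff_zero_X_mul, abs_zero, zero_mul, add_zero, mul_sum]
  refine sum_congr rfl fun k _ => ?_
  rw [coeff_succ_X_mul, pow_succ]
  ring

lemma nm_gr {N T : ℕ} (hT : 2 * N ≤ T) (hT1 : 1 ≤ T) {f : ℚ⟦X⟧} (hf : Gr N f) (L : ℕ) :
    nm (1 / T) L f ≤ 2 * N := by
  have hT0 : (0 : ℚ) < T := by exact_mod_cast hT1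
  have hTQ : (2 : ℚ) * N ≤ T := by exact_mod_cast hT
  have hN0 : (0 : ℚ) ≤ N := Nat.cast_nonneg N
  have hr : (N : ℚ) * (1 / T) ≤ 1 / 2 := by
    rw [mul_one_div, div_le_div_iff₀ hT0 (by norm_num)]
    linarith
  have h1 : nm (1 / T) L f ≤ 2 * N - 2 * N * (1 / 2) ^ L := by
    induction L with
    | zero => simp [nm]
    | succ L ih =>
      have h2 : nm (1 / T) (L + 1) f = nm (1 / T) L f + |coeff L f| * (1 / (T : ℚ)) ^ L := by
        unfold nm
        rw [sum_range_succ]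
      have h3 : |coeff L f| * (1 / (T : ℚ)) ^ L ≤ N * (1 / 2) ^ L := by
        calc |coeff L f| * (1 / (T : ℚ)) ^ L ≤ (N : ℚ) ^ (L + 1) * (1 / (T : ℚ)) ^ L :=
              mul_le_mul_of_nonneg_right (hf L).1 (by positivity)
          _ = N * (N * (1 / (T : ℚ))) ^ L := by rw [mul_pow]; ring
          _ ≤ N * (1 / 2) ^ L := by
              apply mul_le_mul_of_nonneg_left _ hN0
              exact pow_le_pow_left₀ (by positivity) hr L
      rw [h2, pow_succ]
      linarith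
  have h2 : 0 ≤ 2 * (N : ℚ) * (1 / 2) ^ L := by positivity
  linarith

lemma contract_size {N d : ℕ} (hN : 1 ≤ N) {V β : ℚ⟦X⟧} (Φ : Polynomial ℚ⟦X⟧)
    (hd : Φ.natDegree ≤ d) (hβ : Gr N β) (hΦ : ∀ k, Gr N (Φ.coeff k))
    (h : V = β + X * Φ.eval V) :
    ∃ T : ℕ, 1 ≤ T ∧ ∀ i, |coeff i V| ≤ (2 * N + 1 : ℚ) * (T : ℚ) ^ i := by
  set T : ℕ := 2 * N + (d + 1) * (2 * N) * (2 * N + 1) ^ d with hT
  have hT2 : 2 * N ≤ T := Nat.le_add_right _ _
  have hT1 : 1 ≤ T := by omega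
  have hT0 : (0 : ℚ) < T := by exact_mod_cast hT1
  have hNQ : (1 : ℚ) ≤ N := by exact_mod_cast hN
  have ht : (0 : ℚ) ≤ 1 / T := by positivity
  have key : ∀ L, nm (1 / T) L V ≤ 2 * N + 1 := by
    intro L
    induction L with
    | zero =>
      simp only [nm, range_zero, sum_empty]
      positivity
    | succ L ih =>
      have h1 : nm (1 / T) L (Φ.eval V) ≤ (d + 1) * (2 * N) * (2 * N + 1) ^ d := by
        rw [Polynomial.eval_eq_sum_range]
        refine (nm_sum ht _ _ _).trans ?_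
        calc ∑ k ∈ range (Φ.natDegree + 1), nm (1 / T) L (Φ.coeff k * V ^ k)
            ≤ ∑ _k ∈ range (Φ.natDegree + 1), (2 * N : ℚ) * (2 * N + 1) ^ d := by
              refine sum_le_sum fun k hk => ?_
              rw [mem_range] at hk
              refine (nm_mul ht _ _ _).trans ?_
              have h2 := nm_gr hT2 hT1 (hΦ k) L
              have h3 : nm (1 / T) L (V ^ k) ≤ (2 * N + 1 : ℚ) ^ d := by
                refine (nm_pow ht _ _ _).trans ((pow_le_pow_left₀ (nm_nonneg ht _ _) ih k).trans ?_)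
                exact pow_le_pow_right₀ (by linarith) (by omega)
              exact mul_le_mul h2 h3 (nm_nonneg ht _ _) (by positivity)
          _ = ((Φ.natDegree : ℚ) + 1) * ((2 * N : ℚ) * (2 * N + 1) ^ d) := by
              rw [sum_const, card_range, nsmul_eq_mul]
              push_cast
              ring
          _ ≤ ((d : ℚ) + 1) * ((2 * N : ℚ) * (2 * N + 1) ^ d) := by
              have : (Φ.natDegree : ℚ) ≤ d := by exact_mod_cast hd
              gcongr
          _ = _ := by ring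
      have h2 : nm (1 / T) (L + 1) V ≤ nm (1 / T) (L + 1) β + 1 / T * nm (1 / T) L (Φ.eval V) := by
        conv_lhs => rw [h]
        refine (nm_add ht _ _ _).trans (le_of_eq ?_)
        rw [nm_X_mul]
      have h3 := nm_gr hT2 hT1 hβ (L + 1)
      have h4 : 1 / (T : ℚ) * nm (1 / T) L (Φ.eval V) ≤ 1 := by
        have h5 : nm (1 / T) L (Φ.eval V) ≤ T := by
          refine h1.trans ?_
          rw [hT]
          push_cast
          linarith
        have h6 := mul_le_mul_of_nonneg_left h5 ht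
        have h7 : 1 / (T : ℚ) * T = 1 := by field_simp
        rwa [h7] at h6
      linarith
  refine ⟨T, hT1, fun i => ?_⟩
  have h1 := key (i + 1)
  have h2 : |coeff i V| * (1 / (T : ℚ)) ^ i ≤ nm (1 / T) (i + 1) V :=
    single_le_sum (f := fun k => |coeff k V| * (1 / (T : ℚ)) ^ k)
      (fun _ _ => by positivity) (mem_range.2 (Nat.lt_succ_self i))
  have h3 := h2.trans h1
  rw [one_div, inv_pow, ← div_eq_mul_inv, div_le_iff₀ (by positivity)] at h3
  exact h3

lemma SG_contract {V β : ℚ⟦X⟧} (Φ : Polynomial ℚ⟦X⟧)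
    (hβ : β ∈ SG) (hΦ : ∀ k, Φ.coeff k ∈ SG) (h : V = β + X * Φ.eval V) : V ∈ SG := by
  obtain ⟨N1, hN1, hb⟩ := hβ
  obtain ⟨N2, hN2, hc⟩ := SG_common Φ.support Φ.coeff (fun k _ => hΦ k)
  set N := N1 * N2 with hN
  have hN1 : 1 ≤ N := Nat.mul_pos hN1 hN2
  have hβ' : Gr N β := hb.of_dvd hN1 (dvd_mul_right _ _)
  have hΦ' : ∀ k, Gr N (Φ.coeff k) := by
    intro k
    by_cases hk : k ∈ Φ.support
    · exact (hc k hk).of_dvd hN1 (dvd_mul_left _ _)
    · rw [Polynomial.notMem_support_iff.1 hk]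
      exact Gr.zero N
  obtain ⟨T, hT1, hT⟩ := contract_size hN1 Φ le_rfl hβ' hΦ' h
  set d := Φ.natDegree with hd
  have hNQ : (1 : ℚ) ≤ N := by exact_mod_cast hN1
  have hTQ : (1 : ℚ) ≤ T := by exact_mod_cast hT1
  refine ⟨N ^ (d + 2) * (T * (2 * N + 1)), Nat.mul_pos (Nat.pow_pos hN1)
    (Nat.mul_pos hT1 (by omega)), fun i => ?_⟩
  constructor
  · refine (hT i).trans ?_
    push_cast
    calc (2 * N + 1 : ℚ) * (T : ℚ) ^ i ≤ (2 * N + 1) ^ (i + 1) * (T : ℚ) ^ (i + 1) := by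
          have h1 : (2 * N + 1 : ℚ) ≤ (2 * N + 1) ^ (i + 1) :=
            le_self_pow₀ (by linarith) (by omega)
          have h2 : (T : ℚ) ^ i ≤ (T : ℚ) ^ (i + 1) := pow_le_pow_right₀ hTQ (by omega)
          exact mul_le_mul h1 h2 (by positivity) (by positivity)
      _ = 1 * ((T * (2 * N + 1)) ^ (i + 1)) := by rw [mul_pow]; ring
      _ ≤ ((N : ℚ) ^ (d + 2)) ^ (i + 1) * ((T * (2 * N + 1)) ^ (i + 1)) := by
          apply mul_le_mul_of_nonneg_right _ (by positivity)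
          exact one_le_pow₀ (one_le_pow₀ hNQ)
      _ = _ := by rw [← mul_pow]
  · obtain ⟨z, hz⟩ := contract_den Φ le_rfl hβ' hΦ' h (i + 1) i (Nat.lt_succ_self i)
    refine ⟨(N ^ ((d + 2) * (i + 1) - ((d + 1) * i + 1)) * (T * (2 * N + 1)) ^ (i + 1)) * z, ?_⟩
    push_cast
    rw [← hz, mul_pow, ← pow_mul]
    have e1 : (N : ℚ) ^ ((d + 2) * (i + 1)) =
        (N : ℚ) ^ ((d + 2) * (i + 1) - ((d + 1) * i + 1)) * (N : ℚ) ^ ((d + 1) * i + 1) := by
      rw [← pow_add]
      congr 1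
      have : (d + 1) * i + 1 ≤ (d + 2) * (i + 1) := by nlinarith
      omega
    rw [e1]
    ring

lemma SG_inv {u : ℚ⟦X⟧} (hu : constantCoeff u ≠ 0) (h : u ∈ SG) : u⁻¹ ∈ SG := by
  have huu : u * u⁻¹ = 1 := PowerSeries.mul_inv_cancel _ hu
  obtain ⟨t, ht⟩ : X ∣ u - C (constantCoeff u) := by
    rw [X_dvd_iff]; simp
  have htG : t ∈ SG := by
    apply SG_of_X_pow_mul 1
    rw [pow_one, ← ht]
    exact sub_mem h (SG.algebraMap_mem _)
  set c := constantCoeff u with hc
  refine SG_contract (β := C c⁻¹) (Polynomial.C (-(C c⁻¹ * t)) * Polynomial.X) (SG.algebraMap_mem _) ?_ ?_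
  · intro k
    rw [Polynomial.coeff_C_mul, Polynomial.coeff_X]
    split_ifs
    · rw [mul_one]
      exact neg_mem (mul_mem (SG.algebraMap_mem _) htG)
    · rw [mul_zero]; exact zero_mem _
  · have h1 : (C c⁻¹ : ℚ⟦X⟧) * C c = 1 := by rw [← map_mul, inv_mul_cancel₀ hu, map_one]
    rw [Polynomial.eval_mul, Polynomial.eval_C, Polynomial.eval_X]
    have h2 : u = C c + X * t := by rw [← ht]; ring
    have h3 : (C c + X * t) * u⁻¹ = 1 := by rw [← h2]; exact huu
    linear_combination C c⁻¹ * h3 - u⁻¹ * h1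

/-- a nonzero polynomial killing `w` can be replaced by one with `w` as a simple root -/
lemma exists_simple {R A : Type*} [CommRing R] [IsDomain R] [CharZero R] [CommRing A] [Algebra R A]
    [FaithfulSMul R A] (w : A) : ∀ (d : ℕ) (p : Polynomial R), p.natDegree = d → p ≠ 0 →
    Polynomial.aeval w p = 0 →
    ∃ q : Polynomial R, Polynomial.aeval w q = 0 ∧
      Polynomial.aeval w (Polynomial.derivative q) ≠ 0 := by
  intro d
  induction d using Nat.strong_induction_on with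
  | _ d ih =>
    intro p hd hp h
    by_cases h' : Polynomial.aeval w (Polynomial.derivative p) = 0
    · have hd0 : p.natDegree ≠ 0 := by
        intro h0
        rw [Polynomial.eq_C_of_natDegree_eq_zero h0, Polynomial.aeval_C] at h
        apply hp
        rw [Polynomial.eq_C_of_natDegree_eq_zero h0]
        have : p.coeff 0 = 0 := FaithfulSMul.algebraMap_injective R A (by rw [h, map_zero])
        rw [this, map_zero]
      have hp' : Polynomial.derivative p ≠ 0 := by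
        intro h0
        exact hd0 (Polynomial.derivative_eq_zero.1 h0)
      exact ih _ (by rw [← hd]; exact Polynomial.natDegree_derivative_lt hd0) _ rfl hp' h'
    · exact ⟨p, h, h'⟩

/-- **Eisenstein's theorem**, with growth: `SG` is algebraically closed in `ℚ⟦X⟧`. -/
theorem SG_of_isAlgebraic {w : ℚ⟦X⟧} (h : IsAlgebraic SG w) : w ∈ SG := by
  classical
  obtain ⟨p, hp, hpw⟩ := h
  have : CharZero SG := charZero_of_injective_algebraMap (algebraMap ℚ SG).injective
  obtain ⟨G, hG, hG'⟩ := exists_simple w _ p rfl hp hpw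
  set g' := Polynomial.aeval w (Polynomial.derivative G) with hg'
  set e := g'.order.toNat with he
  -- truncation
  let Ap : Polynomial ℚ := trunc (e + 1) w
  have hAO : (Ap : ℚ⟦X⟧) ∈ SG := SG_poly _
  let A : SG := ⟨(Ap : ℚ⟦X⟧), hAO⟩
  obtain ⟨V, hV⟩ : X ^ (e + 1) ∣ w - (Ap : ℚ⟦X⟧) := by
    rw [X_pow_dvd_iff]
    intro m hm
    rw [map_sub, Polynomial.coeff_coe, coeff_trunc, if_pos hm, sub_self]
  -- Taylor expansion
  set T := Polynomial.taylor A G with hT
  have hT0 : ∀ Y : ℚ⟦X⟧, Polynomial.aeval (Y + (A : ℚ⟦X⟧)) G = Polynomial.aeval Y T := by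
    intro Y
    rw [hT, Polynomial.taylor_apply, Polynomial.aeval_comp]
    simp only [map_add, Polynomial.aeval_X, Polynomial.aeval_C]
    rfl
  have hw : w = X ^ (e + 1) * V + (A : ℚ⟦X⟧) := by
    change w = X ^ (e + 1) * V + (Ap : ℚ⟦X⟧)
    rw [← hV]; ring
  have hrel : Polynomial.aeval (X ^ (e + 1) * V) T = 0 := by rw [← hT0, ← hw, hG]
  -- coefficient 1
  have hT1 : ∃ u : ℚ⟦X⟧, constantCoeff u ≠ 0 ∧ ((T.coeff 1 : SG) : ℚ⟦X⟧) = X ^ e * u := by
    have e1 : ((T.coeff 1 : SG) : ℚ⟦X⟧) =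
        Polynomial.aeval (A : ℚ⟦X⟧) (Polynomial.derivative G) := by
      rw [hT, Polynomial.taylor_coeff_one]
      have : ∀ q : Polynomial SG, ((q.eval A : SG) : ℚ⟦X⟧) =
          Polynomial.aeval (A : ℚ⟦X⟧) q := by
        intro q
        have := Polynomial.aeval_algebraMap_apply ℚ⟦X⟧ A q
        rw [Polynomial.coe_aeval_eq_eval] at this
        exact this.symm
      exact this _
    have e2 : X ^ (e + 1) ∣ g' - Polynomial.aeval (A : ℚ⟦X⟧) (Polynomial.derivative G) := by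
      have h1 : w - (A : ℚ⟦X⟧) ∣ g' - Polynomial.aeval (A : ℚ⟦X⟧) (Polynomial.derivative G) := by
        rw [hg']
        simp only [Polynomial.aeval_def, Polynomial.eval₂_eq_eval_map]
        exact Polynomial.sub_dvd_eval_sub _ _ _
      exact (Dvd.intro V hV.symm).trans h1
    obtain ⟨t, ht⟩ := e2
    refine ⟨divXPowOrder g' - X * t, ?_, ?_⟩
    · rw [map_sub, map_mul, constantCoeff_X, zero_mul, sub_zero]
      simpa using constantCoeff_divXPowOrder_eq_zero_iff.not.mpr hG'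
    · rw [e1]
      have h2 : g' = X ^ e * divXPowOrder g' := (g'.X_pow_order_mul_divXPowOrder).symm
      have h3 : Polynomial.aeval (A : ℚ⟦X⟧) (Polynomial.derivative G) = g' - X ^ (e + 1) * t := by
        rw [← ht]; ring
      rw [h3]
      conv_lhs => rw [h2]
      ring
  obtain ⟨u, hu, hTu⟩ := hT1
  have huO : u ∈ SG := by
    apply SG_of_X_pow_mul e
    rw [← hTu]; exact (T.coeff 1).2
  -- expand the relation
  have hexp : Polynomial.aeval (X ^ (e + 1) * V) T =
      ((T.coeff 0 : SG) : ℚ⟦X⟧) + X ^ (2 * e + 1) * (u * V +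
        X * ∑ k ∈ Finset.range T.natDegree, ((T.coeff (k + 2) : SG) : ℚ⟦X⟧) *
          X ^ ((e + 1) * k) * V ^ (k + 2)) := by
    rw [Polynomial.aeval_def, Polynomial.eval₂_eq_sum_range' _ (n := T.natDegree + 2) (by omega),
      Finset.sum_range_succ', Finset.sum_range_succ']
    have ea : ∀ x : SG, algebraMap SG ℚ⟦X⟧ x = (x : ℚ⟦X⟧) := fun _ => rfl
    simp only [ea, zero_add, pow_zero, mul_one, pow_one]
    rw [hTu, mul_add, Finset.mul_sum, Finset.mul_sum]
    have : ∀ k ∈ Finset.range T.natDegree, ((T.coeff (k + 1 + 1) : SG) : ℚ⟦X⟧) *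
        (X ^ (e + 1) * V) ^ (k + 1 + 1) = X ^ (2 * e + 1) * (X *
          (((T.coeff (k + 2) : SG) : ℚ⟦X⟧) * X ^ ((e + 1) * k) * V ^ (k + 2))) := by
      intro k _
      rw [mul_pow, ← pow_mul]
      ring
    rw [Finset.sum_congr rfl this]
    ring
  rw [hexp] at hrel
  -- the constant term is divisible
  obtain ⟨b, hb⟩ : X ^ (2 * e + 1) ∣ ((T.coeff 0 : SG) : ℚ⟦X⟧) :=
    ⟨-(u * V + X * ∑ k ∈ Finset.range T.natDegree, ((T.coeff (k + 2) : SG) : ℚ⟦X⟧) *
          X ^ ((e + 1) * k) * V ^ (k + 2)), by linear_combination hrel⟩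
  have hbO : b ∈ SG := by
    apply SG_of_X_pow_mul (2 * e + 1)
    rw [← hb]; exact (T.coeff 0).2
  have hrel2 : b + (u * V + X * ∑ k ∈ Finset.range T.natDegree,
      ((T.coeff (k + 2) : SG) : ℚ⟦X⟧) * X ^ ((e + 1) * k) * V ^ (k + 2)) = 0 := by
    have h5 : X ^ (2 * e + 1) * (b + (u * V + X * ∑ k ∈ Finset.range T.natDegree,
      ((T.coeff (k + 2) : SG) : ℚ⟦X⟧) * X ^ ((e + 1) * k) * V ^ (k + 2))) = 0 := by
      rw [mul_add, ← hb]; exact hrel
    exact (mul_eq_zero.1 h5).resolve_left (pow_ne_zero _ X_ne_zero)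
  have huu : u * u⁻¹ = 1 := PowerSeries.mul_inv_cancel _ hu
  have huI : u⁻¹ ∈ SG := SG_inv hu huO
  let c : ℕ → ℚ⟦X⟧ := fun k => -(u⁻¹ * (((T.coeff (k + 2) : SG) : ℚ⟦X⟧) * X ^ ((e + 1) * k)))
  have hcO : ∀ k, c k ∈ SG := fun k =>
    neg_mem (mul_mem huI (mul_mem ((T.coeff (k + 2)).2) (pow_mem SG_X _)))
  let Φ : Polynomial ℚ⟦X⟧ := ∑ k ∈ Finset.range T.natDegree,
    Polynomial.C (c k) * Polynomial.X ^ (k + 2)
  have hVeq : V = -(u⁻¹ * b) + X * Φ.eval V := by
    have h6 : Φ.eval V = ∑ k ∈ Finset.range T.natDegree, c k * V ^ (k + 2) := by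
      simp [Φ, Polynomial.eval_finsetSum]
    have h7 : ∑ k ∈ Finset.range T.natDegree, c k * V ^ (k + 2) =
        -(u⁻¹ * ∑ k ∈ Finset.range T.natDegree,
      ((T.coeff (k + 2) : SG) : ℚ⟦X⟧) * X ^ ((e + 1) * k) * V ^ (k + 2)) := by
      rw [Finset.mul_sum, ← Finset.sum_neg_distrib]
      exact Finset.sum_congr rfl fun k _ => by simp only [c]; ring
    rw [h6, h7]
    linear_combination (u⁻¹) * hrel2 - V * huu
  have hVO : V ∈ SG := by
    refine SG_contract Φ (neg_mem (mul_mem huI hbO)) ?_ hVeq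
    intro k
    simp only [Φ, Polynomial.finsetSum_coeff, Polynomial.coeff_C_mul, Polynomial.coeff_X_pow]
    refine sum_mem fun i hi => ?_
    split_ifs
    · rw [mul_one]; exact hcO i
    · rw [mul_zero]; exact zero_mem _
  rw [hw]
  exact add_mem (mul_mem (pow_mem SG_X _) hVO) hAO

/-- **Eisenstein's theorem**: algebraic power series have coefficients and denominators of
geometric growth. -/
theorem SG_of_alg {w : ℚ⟦X⟧} (h : IsAlgebraic (Polynomial ℚ) w) : w ∈ SG := by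
  apply SG_of_isAlgebraic
  obtain ⟨P, hP, hPw⟩ := h
  let φ : Polynomial ℚ →+* SG :=
    { toFun := fun Q => ⟨(Q : ℚ⟦X⟧), SG_poly Q⟩
      map_one' := by apply Subtype.ext; simp
      map_mul' := by intro a b; apply Subtype.ext; simp
      map_zero' := by apply Subtype.ext; simp
      map_add' := by intro a b; apply Subtype.ext; simp }
  have hφ : Function.Injective φ := by
    intro a b h
    have := congrArg Subtype.val h
    exact Polynomial.coe_injective ℚ this
  refine ⟨P.map φ, ?_, ?_⟩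
  · rw [Ne, Polynomial.map_eq_zero_iff hφ]
    exact hP
  · rw [Polynomial.aeval_def, Polynomial.eval₂_map]
    exact hPw

end Pool.Agent.H609.GF
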