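import Pool.Agent.H609.GF.Ode
import Pool.Agent.H609.GF.Gr
import Pool.Agent.H609.GF.Key

/-!
# Algebraic power series have bounded gaps, and the final form of their properties
-/

set_option autoImplicit false

namespace Pool.Agent.H609.GF

open Finset PowerSeries

/-- a derivation over the integers -/
def mkD {S : Type*} [CommRing S] (D : S →+ S) (h : ∀ a b, D (a * b) = a * D b + b * D a) :
    Derivation ℤ S S :=
  Derivation.mk' D.toIntLinearMap h

/-- the Euler operator -/
noncomputable def theta := mkD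
  { toFun := fun f : ℚ⟦X⟧ => X * PowerSeries.derivative ℚ f
    map_zero' := by simp
    map_add' := fun a b => by rw [map_add, mul_add] }
  (fun a b => by
    simp only [AddMonoidHom.coe_mk, ZeroHom.coe_mk, Derivation.leibniz, smul_eq_mul]
    ring)

lemma theta_apply (f : ℚ⟦X⟧) : theta f = X * PowerSeries.derivative ℚ f := rfl

lemma coeff_theta (f : ℚ⟦X⟧) (n : ℕ) : coeff n (theta f) = n * coeff n f := by
  rw [theta_apply]
  cases n with
  | zero => rw [coeff_zero_X_mul]; simp
  | succ n =>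
    rw [coeff_succ_X_mul, coeff_derivative]
    push_cast
    ring

lemma coeff_theta_iter (f : ℚ⟦X⟧) (n k : ℕ) :
    coeff n ((theta^[k]) f) = (n : ℚ) ^ k * coeff n f := by
  induction k with
  | zero => simp
  | succ k ih => rw [Function.iterate_succ_apply', coeff_theta, ih, pow_succ]; ring

lemma theta_poly (r : Polynomial ℚ) : ∃ r' : Polynomial ℚ,
    theta (algebraMap (Polynomial ℚ) ℚ⟦X⟧ r) = algebraMap (Polynomial ℚ) ℚ⟦X⟧ r' := by
  refine ⟨Polynomial.X * Polynomial.derivative r, ?_⟩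
  have h : ∀ p : Polynomial ℚ, algebraMap (Polynomial ℚ) ℚ⟦X⟧ p = (p : ℚ⟦X⟧) := by
    intro p
    rw [PowerSeries.algebraMap_apply', Algebra.algebraMap_self, PowerSeries.map_id]
    rfl
  rw [h, h, theta_apply, derivative_coe, Polynomial.coe_mul, Polynomial.coe_X]

instance faithful_poly : FaithfulSMul (Polynomial ℚ) ℚ⟦X⟧ := by
  rw [faithfulSMul_iff_algebraMap_injective]
  have h : ∀ p : Polynomial ℚ, algebraMap (Polynomial ℚ) ℚ⟦X⟧ p = (p : ℚ⟦X⟧) := by
    intro p
    rw [PowerSeries.algebraMap_apply', Algebra.algebraMap_self, PowerSeries.map_id]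
    rfl
  intro a b hab
  rw [h, h] at hab
  exact Polynomial.coe_injective ℚ hab

/-- a linear recurrence for the coefficients -/
lemma recur {f : ℚ⟦X⟧} (hf : IsAlgebraic (Polynomial ℚ) f) :
    ∃ J N₀ : ℕ, ∀ N, N₀ < N → (∀ i, i < N → N ≤ i + J → coeff i f = 0) → coeff N f = 0 := by
  classical
  obtain ⟨d, c, ⟨i1, hi1, hci1⟩, hc⟩ := ode theta theta_poly hf
  -- the polynomials in the index
  let q : ℕ → Polynomial ℚ := fun j =>
    ∑ i ∈ range (d + 1), Polynomial.C ((c i).coeff j) * Polynomial.X ^ i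
  have hq : ∀ j i, i ≤ d → (q j).coeff i = (c i).coeff j := by
    intro j i hi
    simp only [q, Polynomial.finsetSum_coeff, Polynomial.coeff_C_mul, Polynomial.coeff_X_pow]
    rw [Finset.sum_eq_single_of_mem i (mem_range.2 (by omega))]
    · simp
    · intro i' _ hi'
      rw [if_neg (Ne.symm hi'), mul_zero]
  have hex : ∃ j, q j ≠ 0 := by
    refine ⟨(c i1).natDegree, fun h0 => ?_⟩
    have h1 := hq (c i1).natDegree i1 hi1
    rw [h0, Polynomial.coeff_zero] at h1
    exact hci1 (Polynomial.leadingCoeff_eq_zero.1 h1.symm)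
  set j0 := Nat.find hex with hj0
  have hq0 : q j0 ≠ 0 := Nat.find_spec hex
  have hlt : ∀ j < j0, q j = 0 := fun j hj => by
    by_contra h
    exact Nat.find_min hex hj h
  set J : ℕ := (range (d + 1)).sup fun i => (c i).natDegree with hJ
  have hbig : ∀ j, J < j → q j = 0 := by
    intro j hj
    simp only [q]
    refine sum_eq_zero fun i hi => ?_
    have h1 : (c i).natDegree ≤ J := Finset.le_sup (f := fun i => (c i).natDegree) hi
    rw [Polynomial.coeff_eq_zero_of_natDegree_lt (by omega), Polynomial.C_0, zero_mul]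
  -- the relation
  have hrel : ∀ n : ℕ, ∑ p ∈ antidiagonal n, (q p.1).eval (p.2 : ℚ) * coeff p.2 f = 0 := by
    intro n
    have h1 := congrArg (coeff n) hc
    rw [map_zero, map_sum] at h1
    rw [← h1]
    have h2 : ∀ i ∈ range (d + 1), coeff n (c i • (theta^[i]) f) =
        ∑ p ∈ antidiagonal n, (c i).coeff p.1 * ((p.2 : ℚ) ^ i * coeff p.2 f) := by
      intro i _
      have h3 : c i • (theta^[i]) f = (c i : ℚ⟦X⟧) * (theta^[i]) f := by
        rw [Algebra.smul_def, PowerSeries.algebraMap_apply', Algebra.algebraMap_self,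
          PowerSeries.map_id]
        rfl
      rw [h3, coeff_mul]
      refine sum_congr rfl fun p _ => ?_
      rw [Polynomial.coeff_coe, coeff_theta_iter]
    rw [sum_congr rfl h2, sum_comm]
    refine sum_congr rfl fun p _ => ?_
    simp only [q, Polynomial.eval_finsetSum, Polynomial.eval_mul, Polynomial.eval_C,
      Polynomial.eval_pow, Polynomial.eval_X]
    rw [sum_mul]
    refine sum_congr rfl fun i _ => ?_
    ring
  -- the roots
  obtain ⟨N₀, hN₀⟩ : ∃ N₀ : ℕ, ∀ N : ℕ, N₀ < N → (q j0).eval (N : ℚ) ≠ 0 := by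
    have hfin : {N : ℕ | (q j0).eval (N : ℚ) = 0}.Finite := by
      have h1 := Polynomial.finite_setOf_isRoot hq0
      have h2 := h1.preimage (f := fun N : ℕ => (N : ℚ)) (Nat.cast_injective.injOn)
      exact h2
    obtain ⟨N₀, hN₀⟩ := hfin.bddAbove
    refine ⟨N₀, fun N hN h0 => ?_⟩
    have := hN₀ (show N ∈ {N : ℕ | (q j0).eval (N : ℚ) = 0} from h0)
    omega
  refine ⟨J, N₀, fun N hN hz => ?_⟩
  have h1 := hrel (j0 + N)
  rw [sum_eq_single_of_mem (j0, N) (by simp)] at h1
  · exact (mul_eq_zero.1 h1).resolve_left (hN₀ N hN)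
  · rintro ⟨j, i⟩ hp hne
    rw [HasAntidiagonal.mem_antidiagonal] at hp
    simp only at hp ⊢
    rcases lt_trichotomy j j0 with h2 | h2 | h2
    · rw [hlt j h2, Polynomial.eval_zero, zero_mul]
    · exfalso
      subst h2
      apply hne
      have : i = N := by omega
      rw [this]
    · by_cases h3 : J < j
      · rw [hbig j h3, Polynomial.eval_zero, zero_mul]
      · rw [hz i (by omega) (by omega), mul_zero]

/-- **Algebraic power series which are not polynomials have bounded gaps.** -/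
theorem gap {f : ℚ⟦X⟧} (hf : IsAlgebraic (Polynomial ℚ) f)
    (hnp : ¬ ∃ P : Polynomial ℚ, (P : ℚ⟦X⟧) = f) :
    ∃ g : ℕ, ∀ k, ∃ j, k < j ∧ j ≤ k + g ∧ coeff j f ≠ 0 := by
  obtain ⟨J, N₀, h⟩ := recur hf
  have key : ∀ k, N₀ ≤ k → ∃ j, k < j ∧ j ≤ k + (J + 1) ∧ coeff j f ≠ 0 := by
    intro k hk
    by_contra hcon
    push Not at hcon
    apply hnp
    have hall : ∀ j, k < j → coeff j f = 0 := by
      intro j
      induction j using Nat.strong_induction_on with
      | _ j ih =>
        intro hj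
        by_cases h1 : j ≤ k + (J + 1)
        · exact hcon j hj h1
        · exact h j (by omega) fun i hi hi' => ih i hi (by omega)
    refine ⟨trunc (k + 1) f, ?_⟩
    ext j
    rw [Polynomial.coeff_coe, coeff_trunc]
    split_ifs with h1
    · rfl
    · exact (hall j (by omega)).symm
  refine ⟨N₀ + (J + 1), fun k => ?_⟩
  obtain ⟨j, hj1, hj2, hj3⟩ := key (max k N₀) (le_max_right _ _)
  exact ⟨j, lt_of_le_of_lt (le_max_left _ _) hj1, by omega, hj3⟩

/-- the properties of algebraic power series -/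
theorem gs_of_alg {f : ℚ⟦X⟧} (hf : IsAlgebraic (Polynomial ℚ) f)
    (hnp : ¬ ∃ P : Polynomial ℚ, (P : ℚ⟦X⟧) = f) :
    ∃ C g : ℕ, GS (fun k => coeff k f) C g := by
  obtain ⟨g, hg⟩ := gap hf hnp
  obtain ⟨C, hC, h⟩ := SG_of_alg hf
  refine ⟨C, g, ?_, ?_, hg⟩
  · intro k
    have h1 := (h k).1
    exact_mod_cast h1
  · intro k
    refine ⟨C ^ (k + 1), Nat.one_le_pow _ _ hC, le_rfl, fun j hj => ?_⟩
    obtain ⟨z, hz⟩ := (h j).2
    refine ⟨C ^ (k - j) * z, ?_⟩
    have h1 : ((C : ℚ) ^ (k + 1)) * coeff j f = (C : ℚ) ^ (k - j) * z := by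
      rw [← hz, ← mul_assoc, ← pow_add]
      congr 2
      omega
    have h2 := congrArg (fun x : ℚ => (x : ℝ)) h1
    push_cast at h2 ⊢
    exact h2

end Pool.Agent.H609.GF
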