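import Pool.Agent.H609.GF.Ev

/-!
# The numbers `f(b ^ (-n))`, for an algebraic series `f`, are algebraic of height `b ^ (O(n))`, and
irrational for large `n` if `f` is not rational
-/

set_option autoImplicit false

namespace Pool.Agent.H609.GF

open Finset PowerSeries

/-- a common denominator for the first coefficients of finitely many polynomials -/
lemma common_den (q : ℕ → ℕ → ℚ) (I J : ℕ) : ∃ Δ : ℕ, 1 ≤ Δ ∧ ∀ j ≤ J, ∀ i ≤ I, ∃ z : ℤ,
    (Δ : ℚ) * q j i = z := by
  refine ⟨∏ p ∈ range (J + 1) ×ˢ range (I + 1), (q p.1 p.2).den, ?_, fun j hj i hi => ?_⟩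
  · exact Nat.pos_of_ne_zero (prod_ne_zero_iff.2 fun p _ => (q p.1 p.2).den_nz)
  · have h1 : (q j i).den ∣ ∏ p ∈ range (J + 1) ×ˢ range (I + 1), (q p.1 p.2).den :=
      dvd_prod_of_mem (fun p : ℕ × ℕ => (q p.1 p.2).den)
        (mem_product.2 ⟨mem_range.2 (by omega : j < J + 1), mem_range.2 (by omega : i < I + 1)⟩ :
          (j, i) ∈ range (J + 1) ×ˢ range (I + 1))
    obtain ⟨t, ht⟩ := h1
    refine ⟨t * (q j i).num, ?_⟩
    rw [ht]
    push_cast
    have h2 : ((q j i).den : ℚ) * q j i = (q j i).num := by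
      rw [mul_comm]
      exact Rat.mul_den_eq_num _
    rw [← h2]
    ring

lemma natDegree_sum_le' (R : ℕ → ℤ) (J : ℕ) :
    (∑ j ∈ range (J + 1), Polynomial.C (R j) * Polynomial.X ^ j).natDegree ≤ J := by
  refine Polynomial.natDegree_sum_le_of_forall_le _ _ fun j hj => ?_
  rw [mem_range] at hj
  exact (Polynomial.natDegree_C_mul_X_pow_le _ _).trans (by omega)

lemma coeff_sum' (R : ℕ → ℤ) (J k : ℕ) :
    (∑ j ∈ range (J + 1), Polynomial.C (R j) * Polynomial.X ^ j).coeff k =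
      if k ≤ J then R k else 0 := by
  simp only [Polynomial.finsetSum_coeff, Polynomial.coeff_C_mul, Polynomial.coeff_X_pow]
  split_ifs with h
  · rw [sum_eq_single_of_mem k (mem_range.2 (by omega))]
    · simp
    · intro i _ hi
      rw [if_neg (Ne.symm hi), mul_zero]
  · refine sum_eq_zero fun i hi => ?_
    rw [mem_range] at hi
    rw [if_neg (by omega), mul_zero]

/-- a nonzero polynomial does not vanish at `b ^ (-n)`, for large `n` -/
lemma poly_ne {P : Polynomial ℚ} (hP : P ≠ 0) (b : ℕ) (hb : 2 ≤ b) :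
    ∃ n₀ : ℕ, ∀ n, n₀ ≤ n → Polynomial.aeval (((b : ℝ) ^ n)⁻¹) P ≠ 0 := by
  have hinj : Function.Injective fun n : ℕ => ((b : ℝ) ^ n)⁻¹ := by
    intro m n h
    have h1 : ((b : ℝ) ^ m) = (b : ℝ) ^ n := inv_injective h
    have h2 : b ^ m = b ^ n := by exact_mod_cast h1
    exact Nat.pow_right_injective hb h2
  have hP' : P.map (algebraMap ℚ ℝ) ≠ 0 := by
    rwa [Ne, Polynomial.map_eq_zero]
  have hfin : {n : ℕ | Polynomial.aeval (((b : ℝ) ^ n)⁻¹) P = 0}.Finite := by
    have h2 := (Polynomial.finite_setOfPred_isRoot hP').preimage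
      (f := fun n : ℕ => ((b : ℝ) ^ n)⁻¹) hinj.injOn
    refine h2.subset fun n hn => ?_
    rw [Set.mem_preimage, Set.mem_setOf_eq, Polynomial.IsRoot.def, Polynomial.eval_map_algebraMap]
    exact hn
  obtain ⟨N₀, hN₀⟩ := hfin.bddAbove
  refine ⟨N₀ + 1, fun N hN h0 => ?_⟩
  have := hN₀ (show N ∈ {n : ℕ | Polynomial.aeval (((b : ℝ) ^ n)⁻¹) P = 0} from h0)
  omega

/-- **The values are algebraic**, with polynomials of bounded degree and of coefficients bounded by
`b ^ (O(n))`. -/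
theorem int_rel {f : ℚ⟦X⟧} (hf : IsAlgebraic (Polynomial ℚ) f) :
    ∃ A : ℕ, ∀ b : ℕ, 2 ≤ b → ∃ n₀ : ℕ, ∀ n : ℕ, n₀ ≤ n → Sm (((b : ℝ) ^ n)⁻¹) f →
      ∃ R : Polynomial ℤ, R ≠ 0 ∧ R.natDegree ≤ A ∧ (∀ k, |R.coeff k| ≤ (b : ℤ) ^ (A * n)) ∧
        Polynomial.aeval (ev (((b : ℝ) ^ n)⁻¹) f) R = 0 := by
  classical
  obtain ⟨P, hP, hPf⟩ := hf
  set J := P.natDegree with hJ
  set I := (range (J + 1)).sup fun j => (P.coeff j).natDegree with hI
  have hIj : ∀ j ≤ J, (P.coeff j).natDegree ≤ I := fun j hj =>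
    Finset.le_sup (f := fun j => (P.coeff j).natDegree) (mem_range.2 (by omega))
  obtain ⟨Δ, hΔ, hz⟩ := common_den (fun j i => (P.coeff j).coeff i) I J
  have hz' : ∀ j i : ℕ, ∃ z : ℤ, j ≤ J → i ≤ I → (Δ : ℚ) * (P.coeff j).coeff i = z := by
    intro j i
    by_cases h : j ≤ J ∧ i ≤ I
    · obtain ⟨z, hz⟩ := hz j h.1 i h.2
      exact ⟨z, fun _ _ => hz⟩
    · exact ⟨0, fun h1 h2 => absurd ⟨h1, h2⟩ h⟩
  choose z hz' using hz'
  -- the integer coefficients
  set S : ℕ := ∑ j ∈ range (J + 1), ∑ i ∈ range (I + 1), (z j i).natAbs with hS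
  refine ⟨max (I + 1) J, fun b hb => ?_⟩
  have hb1 : (1 : ℝ) ≤ b := by exact_mod_cast (by omega : 1 ≤ b)
  have hb0 : (0 : ℝ) < b := by linarith
  obtain ⟨n1, hn1⟩ := poly_ne (P := P.leadingCoeff) (Polynomial.leadingCoeff_ne_zero.2 hP) b hb
  refine ⟨max n1 S, fun n hn hsm => ?_⟩
  have hnn1 : n1 ≤ n := le_of_max_le_left hn
  have hnS : S ≤ n := le_of_max_le_right hn
  set B : ℕ := b ^ n with hB
  have hB0 : (0 : ℝ) < (b : ℝ) ^ n := by positivity
  set x : ℝ := ((b : ℝ) ^ n)⁻¹ with hx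
  let R : ℕ → ℤ := fun j => ∑ i ∈ range (I + 1), z j i * (B : ℤ) ^ (I - i)
  -- the value of the coefficients
  have hval : ∀ j ≤ J, ((R j : ℤ) : ℝ) = (Δ : ℝ) * ((b : ℝ) ^ n) ^ I * Polynomial.aeval x (P.coeff j) := by
    intro j hj
    rw [Polynomial.aeval_def, Polynomial.eval₂_eq_sum_range' _ (n := I + 1)
      (by have := hIj j hj; omega), mul_sum]
    simp only [R]
    push_cast
    refine sum_congr rfl fun i hi => ?_
    rw [mem_range] at hi
    have h1 : ((z j i : ℤ) : ℝ) = (Δ : ℝ) * (((P.coeff j).coeff i : ℚ) : ℝ) := by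
      have h2 := congrArg (fun q : ℚ => (q : ℝ)) (hz' j i hj (by omega))
      push_cast at h2
      exact h2.symm
    rw [h1, hB]
    push_cast
    have h3 : ((b : ℝ) ^ n) ^ I = ((b : ℝ) ^ n) ^ (I - i) * ((b : ℝ) ^ n) ^ i := by
      rw [← pow_add]
      congr 1
      omega
    have h4 : ((b : ℝ) ^ n) ^ i * x ^ i = 1 := by
      rw [← mul_pow, hx, mul_inv_cancel₀ hB0.ne', one_pow]
    rw [h3, eq_ratCast]
    linear_combination (-(Δ : ℝ) * (((P.coeff j).coeff i : ℚ) : ℝ) * ((b : ℝ) ^ n) ^ (I - i)) * h4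
  refine ⟨∑ j ∈ range (J + 1), Polynomial.C (R j) * Polynomial.X ^ j, ?_, ?_, ?_, ?_⟩
  · intro h0
    have h1 := congrArg (fun Q : Polynomial ℤ => Q.coeff J) h0
    simp only [coeff_sum', le_refl, if_true, Polynomial.coeff_zero] at h1
    have h2 := hval J le_rfl
    rw [h1, Int.cast_zero] at h2
    have h3 := hn1 n hnn1
    have h4 : (Δ : ℝ) * ((b : ℝ) ^ n) ^ I ≠ 0 := by positivity
    exact h3 ((mul_eq_zero.1 h2.symm).resolve_left h4)
  · exact (natDegree_sum_le' R J).trans (le_max_right _ _)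
  · intro k
    rw [coeff_sum']
    split_ifs with hk
    · have hbn1 : 1 ≤ b := by omega
      have hB1 : (1 : ℤ) ≤ B := by
        rw [hB]
        exact_mod_cast Nat.one_le_pow n b hbn1
      have h1 : |R k| ≤ S * (B : ℤ) ^ I := by
        calc |R k| ≤ ∑ i ∈ range (I + 1), |z k i * (B : ℤ) ^ (I - i)| := abs_sum_le_sum_abs _ _
          _ ≤ ∑ i ∈ range (I + 1), ((z k i).natAbs : ℤ) * (B : ℤ) ^ I := by
              refine sum_le_sum fun i _ => ?_
              rw [abs_mul, Int.abs_eq_natAbs, abs_of_nonneg (by positivity : (0 : ℤ) ≤ (B : ℤ) ^ (I - i))]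
              exact mul_le_mul_of_nonneg_left (pow_le_pow_right₀ hB1 (by omega)) (by positivity)
          _ = (∑ i ∈ range (I + 1), (z k i).natAbs : ℕ) * (B : ℤ) ^ I := by
              rw [← sum_mul]
              push_cast
              rfl
          _ ≤ S * (B : ℤ) ^ I := by
              refine mul_le_mul_of_nonneg_right ?_ (by positivity)
              have := single_le_sum (f := fun j => ∑ i ∈ range (I + 1), (z j i).natAbs)
                (fun _ _ => Nat.zero_le _) (mem_range.2 (by omega : k < J + 1))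
              exact_mod_cast this
      refine h1.trans ?_
      have h2 : (S : ℤ) ≤ B := by
        have h3 : S ≤ b ^ n := hnS.trans ((Nat.lt_two_pow_self (n := n)).le.trans
          (Nat.pow_le_pow_left hb n))
        exact_mod_cast h3
      calc (S : ℤ) * (B : ℤ) ^ I ≤ B * (B : ℤ) ^ I := mul_le_mul_of_nonneg_right h2 (by positivity)
        _ = (b : ℤ) ^ ((I + 1) * n) := by
            rw [hB]
            push_cast
            rw [← pow_succ', ← pow_mul]
            congr 1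
            ring
        _ ≤ _ := by
            refine pow_le_pow_right₀ (by exact_mod_cast hbn1) ?_
            exact Nat.mul_le_mul_right _ (le_max_left _ _)
    · rw [abs_zero]; positivity
  · rw [map_sum]
    have h1 := rel hsm hPf
    have h2 : ∀ j ∈ range (J + 1), Polynomial.aeval (ev x f)
        (Polynomial.C (R j) * Polynomial.X ^ j : Polynomial ℤ) =
        (Δ : ℝ) * ((b : ℝ) ^ n) ^ I * (Polynomial.aeval x (P.coeff j) * ev x f ^ j) := by
      intro j hj
      rw [mem_range] at hj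
      rw [map_mul, map_pow, Polynomial.aeval_C, Polynomial.aeval_X]
      have h3 : algebraMap ℤ ℝ (R j) = ((R j : ℤ) : ℝ) := rfl
      rw [h3, hval j (by omega)]
      ring
    rw [sum_congr rfl h2, ← mul_sum, h1, mul_zero]

/-- the first nonzero coefficient determines the value at `b ^ (-n)`, for large `n` -/
lemma value_bounds {E : ℚ⟦X⟧} (hE : E ∈ SG) (hE0 : E ≠ 0) (b : ℕ) (hb : 2 ≤ b) (r : ℕ)
    (hr : ∀ k < r, coeff k E = 0) : ∃ K : ℝ, ∃ n₀ : ℕ, ∀ n : ℕ, n₀ ≤ n →
      ev (((b : ℝ) ^ n)⁻¹) E ≠ 0 ∧ |ev (((b : ℝ) ^ n)⁻¹) E| ≤ K * (((b : ℝ) ^ n)⁻¹) ^ r := by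
  classical
  obtain ⟨C, hC, h⟩ := hE
  have hsize : ∀ k, |((coeff k E : ℚ) : ℝ)| ≤ (C : ℝ) ^ (k + 1) := by
    intro k
    have := (h k).1
    exact_mod_cast this
  have hex : ∃ k, coeff k E ≠ 0 := by
    by_contra hcon
    push Not at hcon
    exact hE0 (PowerSeries.ext hcon)
  set t := Nat.find hex with ht
  have ht0 : coeff t E ≠ 0 := Nat.find_spec hex
  have htl : ∀ k < t, coeff k E = 0 := fun k hk => by
    by_contra hne
    exact Nat.find_min hex hk hne
  have hrt : r ≤ t := by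
    by_contra hcon
    exact ht0 (hr t (by omega))
  have hb0 : (0 : ℝ) < b := by exact_mod_cast (by omega : 0 < b)
  have hb1 : (1 : ℝ) ≤ b := by exact_mod_cast (by omega : 1 ≤ b)
  have hbR : (2 : ℝ) ≤ b := by exact_mod_cast hb
  set v : ℝ := |((coeff t E : ℚ) : ℝ)| with hv
  have hv0 : 0 < v := abs_pos.2 (by exact_mod_cast ht0)
  set G : ℝ := 2 * (b : ℝ) ^ C * ((b : ℝ) ^ C) ^ (t + 1) with hG
  have hG0 : 0 < G := by positivity
  obtain ⟨n1, hn1⟩ := pow_unbounded_of_one_lt (2 * G / v) (by linarith : (1 : ℝ) < b)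
  refine ⟨2 * v, max n1 (C + 1), fun n hn => ?_⟩
  have hnn1 : n1 ≤ n := le_of_max_le_left hn
  have hnC : C + 1 ≤ n := le_of_max_le_right hn
  set x : ℝ := ((b : ℝ) ^ n)⁻¹ with hx
  have hx0 : 0 < x := by positivity
  have hx1 : x ≤ 1 := inv_le_one_of_one_le₀ (one_le_pow₀ hb1)
  obtain ⟨τ, hτ, hτ'⟩ := split_val (a := fun k => coeff k E) hsize b hb n hnC (t + 1)
  have hval : ev x E = ((coeff t E : ℚ) : ℝ) * x ^ t + τ := by
    have h1 : ev x E = val (fun k => coeff k E) b n := rfl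
    rw [h1, hτ, sum_range_succ, sum_eq_zero, zero_add]
    intro k hk
    rw [mem_range] at hk
    rw [htl k hk]
    simp
  have hτ2 : |τ| ≤ v / 2 * x ^ t := by
    refine hτ'.trans ?_
    have h1 : G * x ≤ v / 2 := by
      have h2 : 2 * G / v < (b : ℝ) ^ n :=
        lt_of_lt_of_le hn1 (pow_le_pow_right₀ hb1 hnn1)
      rw [div_lt_iff₀ hv0] at h2
      rw [hx, ← div_eq_mul_inv, div_le_div_iff₀ (by positivity) (by norm_num)]
      linarith
    calc 2 * (b : ℝ) ^ C * ((b : ℝ) ^ C * x) ^ (t + 1) = (G * x) * x ^ t := by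
          rw [hG, mul_pow, pow_succ x t]
          ring
      _ ≤ v / 2 * x ^ t := mul_le_mul_of_nonneg_right h1 (by positivity)
  have habs : |((coeff t E : ℚ) : ℝ) * x ^ t| = v * x ^ t := by
    rw [abs_mul, abs_of_pos (pow_pos hx0 t)]
  have hxt : 0 < x ^ t := by positivity
  constructor
  · intro h0
    rw [h0] at hval
    have h1 : ((coeff t E : ℚ) : ℝ) * x ^ t = -τ := by linarith
    rw [h1, abs_neg] at habs
    have h2 : 0 < v * x ^ t := by positivity
    linarith
  · have h1 := abs_add_le (((coeff t E : ℚ) : ℝ) * x ^ t) τ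
    rw [← hval, habs] at h1
    have h2 : x ^ t ≤ x ^ r := pow_le_pow_of_le_one hx0.le hx1 hrt
    have h3 : 2 * v * x ^ t ≤ 2 * v * x ^ r := mul_le_mul_of_nonneg_left h2 (by positivity)
    have h4 : 0 < v * x ^ t := by positivity
    linarith

/-- Padé approximation -/
lemma pade (f : ℚ⟦X⟧) (L : ℕ) : ∃ Q P : Polynomial ℚ, Q ≠ 0 ∧ Q.natDegree ≤ L ∧ P.natDegree ≤ L ∧
    ∀ k < 2 * L + 1, coeff k ((Q : ℚ⟦X⟧) * f - (P : ℚ⟦X⟧)) = 0 := by
  let T : (Fin (L + 1) → ℚ) →ₗ[ℚ] (Fin L → ℚ) :=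
    { toFun := fun v i => ∑ j : Fin (L + 1), v j * coeff (L + 1 + i - j) f
      map_add' := by
        intro u v
        ext i
        simp only [Pi.add_apply, add_mul, sum_add_distrib]
      map_smul' := by
        intro c v
        ext i
        simp only [Pi.smul_apply, smul_eq_mul, RingHom.id_apply, mul_sum, mul_assoc] }
  have hker := LinearMap.ker_ne_bot_of_finrank_lt (f := T) (by simp)
  obtain ⟨v, hv, hv0⟩ := (Submodule.ne_bot_iff _).1 hker
  rw [LinearMap.mem_ker] at hv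
  let Q : Polynomial ℚ := ∑ j : Fin (L + 1), Polynomial.C (v j) * Polynomial.X ^ (j : ℕ)
  have hQc : ∀ k : ℕ, Q.coeff k = if h : k < L + 1 then v ⟨k, h⟩ else 0 := by
    intro k
    simp only [Q, Polynomial.finsetSum_coeff, Polynomial.coeff_C_mul, Polynomial.coeff_X_pow]
    split_ifs with h
    · rw [sum_eq_single_of_mem ⟨k, h⟩ (mem_univ _)]
      · simp
      · intro i _ hi
        rw [if_neg, mul_zero]
        intro hki
        apply hi
        ext
        exact hki.symm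
    · refine sum_eq_zero fun i _ => ?_
      rw [if_neg, mul_zero]
      have := i.2
      omega
  have hQ0 : Q ≠ 0 := by
    intro h0
    apply hv0
    ext j
    have h1 := hQc j
    rw [h0, Polynomial.coeff_zero, dif_pos j.2] at h1
    exact h1.symm
  have hQd : Q.natDegree ≤ L := by
    rw [Polynomial.natDegree_le_iff_coeff_eq_zero]
    intro N hN
    rw [hQc, dif_neg (by omega)]
  refine ⟨Q, trunc (L + 1) ((Q : ℚ⟦X⟧) * f), hQ0, hQd, ?_, fun k hk => ?_⟩
  · have := natDegree_trunc_lt ((Q : ℚ⟦X⟧) * f) L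
    omega
  · rw [map_sub, Polynomial.coeff_coe, coeff_trunc]
    split_ifs with h
    · rw [sub_self]
    · rw [sub_zero]
      obtain ⟨i, rfl⟩ : ∃ i, k = L + 1 + i := ⟨k - (L + 1), by omega⟩
      have hi : i < L := by omega
      have h1 := congrFun hv ⟨i, hi⟩
      simp only [T, LinearMap.coe_mk, AddHom.coe_mk, Pi.zero_apply] at h1
      rw [coeff_mul, Nat.sum_antidiagonal_eq_sum_range_succ (f := fun i j => coeff i (Q : ℚ⟦X⟧) * coeff j f)]
      have h2 : ∀ j ∈ range (L + 1 + i).succ, j ∉ range (L + 1) →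
          coeff j (Q : ℚ⟦X⟧) * coeff (L + 1 + i - j) f = 0 := by
        intro j _ hj
        rw [mem_range] at hj
        rw [Polynomial.coeff_coe, hQc, dif_neg hj, zero_mul]
      rw [← sum_subset (range_subset_range.2 (by omega : L + 1 ≤ (L + 1 + i).succ)) h2,
        ← Fin.sum_univ_eq_sum_range (fun j => coeff j (Q : ℚ⟦X⟧) * coeff (L + 1 + i - j) f) (L + 1)]
      rw [← h1]
      refine sum_congr rfl fun j _ => ?_
      rw [Polynomial.coeff_coe, hQc, dif_pos j.2]

end Pool.Agent.H609.GF
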