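import Pool.Agent.H609.GF.Irr
import Pool.Agent.H609.GF.Gap
import Pool.Agent.H609.GF.Main

/-!
# The numbers `f(b ^ (-n))` are irrational for large `n` if `f` is not rational
-/

set_option autoImplicit false

namespace Pool.Agent.H609.GF

open Finset PowerSeries

lemma poly_int {Q : Polynomial ℚ} {L Δ : ℕ} (hQ : Q.natDegree ≤ L)
    (hΔ : ∀ i ≤ L, ∃ z : ℤ, (Δ : ℚ) * Q.coeff i = z) (b n : ℕ) (hb : 2 ≤ b) :
    ∃ z : ℤ, (Δ : ℝ) * ((b : ℝ) ^ n) ^ L * Polynomial.aeval (((b : ℝ) ^ n)⁻¹) Q = z := by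
  have hb0 : (0 : ℝ) < b := by exact_mod_cast (by omega : 0 < b)
  have hB0 : (0 : ℝ) < (b : ℝ) ^ n := by positivity
  set x : ℝ := ((b : ℝ) ^ n)⁻¹ with hx
  choose! z hz using hΔ
  refine ⟨∑ i ∈ range (L + 1), z i * (b ^ n) ^ (L - i), ?_⟩
  rw [Polynomial.aeval_def, Polynomial.eval₂_eq_sum_range' _ (n := L + 1) (by omega), mul_sum]
  push_cast
  refine sum_congr rfl fun i hi => ?_
  rw [mem_range] at hi
  have h1 : ((z i : ℤ) : ℝ) = (Δ : ℝ) * ((Q.coeff i : ℚ) : ℝ) := by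
    have h2 := congrArg (fun q : ℚ => (q : ℝ)) (hz i (by omega))
    push_cast at h2
    exact h2.symm
  have h3 : ((b : ℝ) ^ n) ^ L = ((b : ℝ) ^ n) ^ (L - i) * ((b : ℝ) ^ n) ^ i := by
    rw [← pow_add]
    congr 1
    omega
  have h4 : ((b : ℝ) ^ n) ^ i * x ^ i = 1 := by
    rw [← mul_pow, hx, mul_inv_cancel₀ hB0.ne', one_pow]
  rw [h1, h3, eq_ratCast]
  linear_combination ((Δ : ℝ) * ((Q.coeff i : ℚ) : ℝ) * ((b : ℝ) ^ n) ^ (L - i)) * h4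

/-- **Irrationality.** -/
theorem irr {f : ℚ⟦X⟧} (hf : IsAlgebraic (Polynomial ℚ) f)
    (hr : ∀ P Q : Polynomial ℚ, (Q : ℚ⟦X⟧) * f = (P : ℚ⟦X⟧) → Q = 0) (b : ℕ) (hb : 2 ≤ b) :
    ∃ n₀ : ℕ, ∀ n : ℕ, n₀ ≤ n → Sm (((b : ℝ) ^ n)⁻¹) f → Irrational (ev (((b : ℝ) ^ n)⁻¹) f) := by
  obtain ⟨A, hA⟩ := int_rel hf
  obtain ⟨n1, hn1⟩ := hA b hb
  obtain ⟨Q, P, hQ0, hQd, hPd, hE⟩ := pade f A
  set E : ℚ⟦X⟧ := (Q : ℚ⟦X⟧) * f - (P : ℚ⟦X⟧) with hEdef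
  have hE0 : E ≠ 0 := by
    intro h0
    exact hQ0 (hr P Q (sub_eq_zero.1 (hEdef.symm.trans h0)))
  have hESG : E ∈ SG := sub_mem (mul_mem (SG_poly Q) (SG_of_alg hf)) (SG_poly P)
  obtain ⟨K, n2, hn2⟩ := value_bounds hESG hE0 b hb _ hE
  obtain ⟨Δ, hΔ1, hΔ⟩ := common_den (fun j i => if j = 0 then Q.coeff i else P.coeff i) A 1
  have hΔQ : ∀ i ≤ A, ∃ z : ℤ, (Δ : ℚ) * Q.coeff i = z := fun i hi => by
    simpa using hΔ 0 (by omega) i hi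
  have hΔP : ∀ i ≤ A, ∃ z : ℤ, (Δ : ℚ) * P.coeff i = z := fun i hi => by
    simpa using hΔ 1 (by omega) i hi
  have hb0 : (0 : ℝ) < b := by exact_mod_cast (by omega : 0 < b)
  have hb1 : (1 : ℝ) ≤ b := by exact_mod_cast (by omega : 1 ≤ b)
  have hbR : (2 : ℝ) ≤ b := by exact_mod_cast hb
  obtain ⟨n3, hn3⟩ := pow_unbounded_of_one_lt (Δ * K) (by linarith : (1 : ℝ) < b)
  refine ⟨max n1 (max n2 n3), fun n hn hsm => ?_⟩
  have hnn1 : n1 ≤ n := le_of_max_le_left hn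
  have hnn2 : n2 ≤ n := le_of_max_le_left (le_of_max_le_right hn)
  have hnn3 : n3 ≤ n := le_of_max_le_right (le_of_max_le_right hn)
  rintro ⟨q, hq⟩
  obtain ⟨R, hR0, hRd, hRc, hRe⟩ := hn1 n hnn1 hsm
  obtain ⟨hv1, hv2⟩ := hn2 n hnn2
  set x : ℝ := ((b : ℝ) ^ n)⁻¹ with hx
  have hB0 : (0 : ℝ) < (b : ℝ) ^ n := by positivity
  -- the denominator of `q`
  have hden : (q.den : ℝ) ≤ (b : ℝ) ^ (A * n) := by
    have h1 : Polynomial.aeval q R = 0 := by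
      have h2 : Polynomial.aeval ((q : ℝ)) R = ((Polynomial.aeval q R : ℚ) : ℝ) := by
        have := Polynomial.aeval_algebraMap_apply ℝ q R
        simpa using this
      have h3 : ((Polynomial.aeval q R : ℚ) : ℝ) = 0 := by
        rw [← h2, hq]
        exact hRe
      exact_mod_cast h3
    have h2 : (q.den : ℤ) ∣ R.leadingCoeff := by
      have h3 := den_dvd_of_is_root h1
      have h4 : Associated (IsFractionRing.den ℤ q : ℤ) q.den := by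
        have := Rat.isFractionRingDen q
        rw [Int.associated_iff_natAbs]
        rw [this]
        simp
      exact h4.symm.dvd.trans h3
    have h3 : (q.den : ℤ) ≤ |R.leadingCoeff| :=
      Int.le_of_dvd (abs_pos.2 (Polynomial.leadingCoeff_ne_zero.2 hR0)) ((dvd_abs _ _).2 h2)
    have h4 := h3.trans (hRc R.natDegree)
    exact_mod_cast h4
  -- the value of `E`
  have hev : ev x E = Polynomial.aeval x Q * q - Polynomial.aeval x P := by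
    have h1 : Sm x ((Q : ℚ⟦X⟧) * f) := (Sm_poly x Q).mul hsm
    have h2 : ev x ((Q : ℚ⟦X⟧) * f) = ev x E + ev x (P : ℚ⟦X⟧) := by
      rw [← ev_add (f := E)]
      · rw [hEdef, sub_add_cancel]
      · rw [hEdef]
        exact (SmA x).sub_mem h1 (Sm_poly x P)
      · exact Sm_poly x P
    rw [ev_mul (Sm_poly x Q) hsm, ev_poly, ev_poly, ← hq] at h2
    linarith
  obtain ⟨zQ, hzQ⟩ := poly_int hQd hΔQ b n hb
  obtain ⟨zP, hzP⟩ := poly_int hPd hΔP b n hb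
  have hqden : (q : ℝ) * q.den = q.num := by
    exact_mod_cast Rat.mul_den_eq_num q
  have hW : (Δ : ℝ) * ((b : ℝ) ^ n) ^ A * q.den * ev x E = ((zQ * q.num - zP * q.den : ℤ) : ℝ) := by
    rw [hev]
    push_cast
    rw [← hzQ, ← hzP, ← hqden]
    ring
  have hW0 : (zQ * q.num - zP * q.den : ℤ) ≠ 0 := by
    intro h0
    rw [h0, Int.cast_zero] at hW
    have h1 : (Δ : ℝ) * ((b : ℝ) ^ n) ^ A * q.den ≠ 0 := by
      have : (q.den : ℝ) ≠ 0 := by exact_mod_cast q.den_nz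
      positivity
    exact hv1 ((mul_eq_zero.1 hW).resolve_left h1)
  have hW1 : (1 : ℝ) ≤ |((zQ * q.num - zP * q.den : ℤ) : ℝ)| := by
    have := Int.one_le_abs hW0
    exact_mod_cast this
  rw [← hW, abs_mul, abs_of_nonneg (by positivity : (0 : ℝ) ≤ (Δ : ℝ) * ((b : ℝ) ^ n) ^ A * q.den)] at hW1
  have h5 : (Δ : ℝ) * ((b : ℝ) ^ n) ^ A * q.den * |ev x E| ≤
      (Δ : ℝ) * ((b : ℝ) ^ n) ^ A * (b : ℝ) ^ (A * n) * (K * x ^ (2 * A + 1)) := by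
    gcongr
  have h6 : (Δ : ℝ) * ((b : ℝ) ^ n) ^ A * (b : ℝ) ^ (A * n) * (K * x ^ (2 * A + 1)) = Δ * K * x := by
    have h7 : ((b : ℝ) ^ n) ^ A * x ^ A = 1 := by
      rw [← mul_pow, hx, mul_inv_cancel₀ hB0.ne', one_pow]
    have h8 : (b : ℝ) ^ (A * n) = ((b : ℝ) ^ n) ^ A := by rw [← pow_mul, mul_comm]
    rw [h8, pow_succ, two_mul, pow_add]
    calc (Δ : ℝ) * ((b : ℝ) ^ n) ^ A * ((b : ℝ) ^ n) ^ A * (K * (x ^ A * x ^ A * x)) =
        (((b : ℝ) ^ n) ^ A * x ^ A) * (((b : ℝ) ^ n) ^ A * x ^ A) * (Δ * K * x) := by ring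
      _ = _ := by rw [h7]; ring
  have h9 : Δ * K * x < 1 := by
    rw [hx, ← div_eq_mul_inv, div_lt_one hB0]
    exact lt_of_lt_of_le hn3 (pow_le_pow_right₀ hb1 hnn3)
  linarith

end Pool.Agent.H609.GF
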