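import Mathlib

/-!
# Elements which are algebraic over a differential ring satisfy linear differential equations
-/

set_option autoImplicit false

namespace Pool.Agent.H609.GF

open Finset Polynomial

variable {R S : Type*} [CommRing R] [IsDomain R] [CharZero R] [CommRing S] [IsDomain S]
  [Algebra R S] [FaithfulSMul R S]

/-- the elements a multiple of which is a combination of the powers `f ^ i`, `i < d` -/
def Sat (R : Type*) {S : Type*} [CommRing R] [CommRing S] [Algebra R S] (f : S) (d : ℕ) (z : S) :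
    Prop :=
  ∃ (r : R) (c : ℕ → R), r ≠ 0 ∧ r • z = ∑ i ∈ range d, c i • f ^ i

omit [CharZero R] [IsDomain S] [FaithfulSMul R S] in
lemma Sat.add {f : S} {d : ℕ} {x y : S} (hx : Sat R f d x) (hy : Sat R f d y) :
    Sat R f d (x + y) := by
  obtain ⟨r, c, hr, h⟩ := hx
  obtain ⟨r', c', hr', h'⟩ := hy
  refine ⟨r * r', fun i => r' * c i + r * c' i, mul_ne_zero hr hr', ?_⟩
  have e1 : (r * r') • (x + y) = r' • (r • x) + r • (r' • y) := by
    rw [smul_add, smul_smul, smul_smul, mul_comm r r']
  rw [e1, h, h', smul_sum, smul_sum, ← sum_add_distrib]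
  refine sum_congr rfl fun i _ => ?_
  rw [add_smul, smul_smul, smul_smul]

omit [CharZero R] [IsDomain S] [FaithfulSMul R S] in
lemma Sat.smul {f : S} {d : ℕ} {x : S} (hx : Sat R f d x) (a : R) : Sat R f d (a • x) := by
  obtain ⟨r, c, hr, h⟩ := hx
  refine ⟨r, fun i => a * c i, hr, ?_⟩
  rw [smul_comm, h, smul_sum]
  exact sum_congr rfl fun i _ => by rw [smul_smul]

omit [CharZero R] [IsDomain S] [FaithfulSMul R S] in
lemma Sat.of_smul {f : S} {d : ℕ} {x : S} {a : R} (ha : a ≠ 0) (hx : Sat R f d (a • x)) :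
    Sat R f d x := by
  obtain ⟨r, c, hr, h⟩ := hx
  exact ⟨r * a, c, mul_ne_zero hr ha, by rw [← smul_smul, h]⟩

omit [CharZero R] [IsDomain S] [FaithfulSMul R S] in
lemma Sat.sum {ι : Type*} {f : S} {d : ℕ} {s : Finset ι} {x : ι → S}
    (h : ∀ i ∈ s, Sat R f d (x i)) : Sat R f d (∑ i ∈ s, x i) := by
  classical
  induction s using Finset.induction_on with
  | empty => exact ⟨1, 0, one_ne_zero, by simp⟩
  | insert a s ha ih =>
    rw [sum_insert ha]
    exact (h a (mem_insert_self _ _)).add (ih fun k hk => h k (mem_insert_of_mem hk))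

omit [CharZero R] [IsDomain S] [FaithfulSMul R S] in
lemma Sat.low {f : S} {d i : ℕ} (hi : i < d) : Sat R f d (f ^ i) := by
  classical
  refine ⟨1, fun j => if j = i then 1 else 0, one_ne_zero, ?_⟩
  rw [sum_eq_single_of_mem i (mem_range.2 hi)]
  · simp
  · intro j _ hj
    simp [hj]

omit [CharZero R] [IsDomain S] [FaithfulSMul R S] in
/-- multiplication by `f` -/
lemma Sat.mul_f {f : S} {P : R[X]} (hP : P ≠ 0) (hPf : aeval f P = 0) {z : S}
    (hz : Sat R f P.natDegree z) : Sat R f P.natDegree (f * z) := by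
  obtain ⟨r, c, hr, h⟩ := hz
  apply Sat.of_smul hr
  rw [← mul_smul_comm, h, mul_sum]
  refine Sat.sum fun i hi => ?_
  rw [mem_range] at hi
  rw [mul_smul_comm, ← pow_succ']
  apply Sat.smul
  rcases lt_or_eq_of_le (Nat.succ_le_of_lt hi) with h1 | h1
  · exact Sat.low h1
  · have h2 : i + 1 = P.natDegree := h1
    rw [h2]
    apply Sat.of_smul (leadingCoeff_ne_zero.2 hP)
    rw [aeval_eq_sum_range, sum_range_succ] at hPf
    have h3 : P.leadingCoeff • f ^ P.natDegree =
        ∑ i ∈ range P.natDegree, (-(P.coeff i)) • f ^ i := by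
      have h4 : P.leadingCoeff • f ^ P.natDegree = -∑ i ∈ range P.natDegree, P.coeff i • f ^ i := by
        rw [leadingCoeff]
        linear_combination hPf
      rw [h4, ← sum_neg_distrib]
      exact sum_congr rfl fun i _ => by rw [neg_smul]
    rw [h3]
    exact Sat.sum fun i hi => (Sat.low (mem_range.1 hi)).smul _

omit [CharZero R] [IsDomain S] [FaithfulSMul R S] in
lemma Sat.pow_mul {f : S} {P : R[X]} (hP : P ≠ 0) (hPf : aeval f P = 0) {z : S}
    (hz : Sat R f P.natDegree z) (k : ℕ) : Sat R f P.natDegree (f ^ k * z) := by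
  induction k with
  | zero => rwa [pow_zero, one_mul]
  | succ k ih =>
    rw [pow_succ', mul_assoc]
    exact ih.mul_f hP hPf

omit [CharZero R] [IsDomain S] [FaithfulSMul R S] in
lemma Sat.mul {f : S} {P : R[X]} (hP : P ≠ 0) (hPf : aeval f P = 0) {w z : S}
    (hw : Sat R f P.natDegree w) (hz : Sat R f P.natDegree z) :
    Sat R f P.natDegree (w * z) := by
  obtain ⟨r, c, hr, h⟩ := hw
  apply Sat.of_smul hr
  rw [← smul_mul_assoc, h, sum_mul]
  refine Sat.sum fun i _ => ?_
  rw [smul_mul_assoc]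
  exact (hz.pow_mul hP hPf i).smul _

omit [CharZero R] in
lemma natDegree_pos {f : S} {P : R[X]} (hP : P ≠ 0) (hPf : aeval f P = 0) :
    0 < P.natDegree := by
  rcases Nat.eq_zero_or_pos P.natDegree with h0 | h0
  · exfalso
    rw [eq_C_of_natDegree_eq_zero h0, aeval_C] at hPf
    apply hP
    rw [eq_C_of_natDegree_eq_zero h0]
    have : P.coeff 0 = 0 := FaithfulSMul.algebraMap_injective R S (by rw [hPf, map_zero])
    rw [this, map_zero]
  · exact h0

omit [CharZero R] in
lemma Sat.one {f : S} {P : R[X]} (hP : P ≠ 0) (hPf : aeval f P = 0) :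
    Sat R f P.natDegree (1 : S) := by
  have := Sat.low (R := R) (f := f) (natDegree_pos hP hPf)
  rwa [pow_zero] at this

omit [CharZero R] in
lemma Sat.aeval {f : S} {P : R[X]} (hP : P ≠ 0) (hPf : aeval f P = 0) (Q : R[X]) :
    Sat R f P.natDegree (aeval f Q) := by
  rw [aeval_eq_sum_range]
  refine Sat.sum fun i _ => ?_
  apply Sat.smul
  have := (Sat.one hP hPf).pow_mul hP hPf i
  rwa [mul_one] at this

omit [CharZero R] in
/-- more elements than the rank are dependent -/
lemma Sat.dep {f : S} {d : ℕ} {z : ℕ → S} (hz : ∀ i, Sat R f d (z i)) :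
    ∃ c : ℕ → R, (∃ i ≤ d, c i ≠ 0) ∧ ∑ i ∈ range (d + 1), c i • z i = 0 := by
  classical
  choose r c hr hc using hz
  let v : Fin (d + 1) → (Fin d → R) := fun i j => c i j
  have hnl : ¬ LinearIndependent R v := by
    intro h
    have h1 := h.fintype_card_le_finrank
    rw [Fintype.card_fin, Module.finrank_fin_fun] at h1
    omega
  obtain ⟨g, hg, i₀, hi₀⟩ := Fintype.not_linearIndependent_iff.1 hnl
  refine ⟨fun i => if h : i < d + 1 then g ⟨i, h⟩ * r i else 0, ⟨i₀, by omega, ?_⟩, ?_⟩
  · simp only [i₀.2, dif_pos]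
    exact mul_ne_zero hi₀ (hr _)
  · rw [Finset.sum_range]
    have h1 : ∀ i : Fin (d + 1), (if h : (i : ℕ) < d + 1 then g ⟨i, h⟩ * r i else 0) • z i =
        ∑ j : Fin d, (g i * c i j) • f ^ (j : ℕ) := by
      intro i
      rw [dif_pos i.2, mul_smul, hc, Finset.sum_range, smul_sum]
      exact sum_congr rfl fun j _ => by rw [smul_smul]
    rw [sum_congr rfl fun i _ => h1 i, sum_comm]
    refine sum_eq_zero fun j _ => ?_
    rw [← sum_smul]
    have h2 := congrFun hg j
    rw [Finset.sum_apply, Pi.zero_apply] at h2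
    have h3 : ∑ i, g i * c i j = 0 := by
      rw [← h2]
      exact sum_congr rfl fun i _ => rfl
    rw [h3, zero_smul]

omit [CharZero R] in
/-- division -/
lemma Sat.div {f : S} {P : R[X]} (hP : P ≠ 0) (hPf : Polynomial.aeval f P = 0) {w z : S}
    (hw0 : w ≠ 0) (hw : Sat R f P.natDegree w) (hwz : Sat R f P.natDegree (w * z)) :
    Sat R f P.natDegree z := by
  classical
  have hpow : ∀ i : ℕ, Sat R f P.natDegree (w ^ i) := by
    intro i
    induction i with
    | zero => rw [pow_zero]; exact Sat.one hP hPf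
    | succ i ih => rw [pow_succ]; exact ih.mul hP hPf hw
  obtain ⟨c, ⟨i1, hi1, hci1⟩, hc⟩ := Sat.dep hpow
  -- the least index with a nonzero coefficient
  have hex : ∃ i, c i ≠ 0 := ⟨i1, hci1⟩
  set i0 := Nat.find hex with hi0
  have hci0 : c i0 ≠ 0 := Nat.find_spec hex
  have hlt : ∀ i < i0, c i = 0 := fun i hi => by
    by_contra h
    exact Nat.find_min hex hi h
  have hi01 : i0 ≤ P.natDegree := (Nat.find_min' hex hci1).trans hi1
  set d := P.natDegree with hd
  -- `w ^ i0` is cancelled
  have h1 : w ^ i0 * ∑ i ∈ range (d + 1 - i0), c (i0 + i) • w ^ i = 0 := by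
    rw [← hc]
    have h2 : range (d + 1) = range (i0 + (d + 1 - i0)) := by congr 1; omega
    rw [h2, sum_range_add, mul_sum]
    have h3 : ∑ i ∈ range i0, c i • w ^ i = 0 := by
      refine sum_eq_zero fun i hi => ?_
      rw [hlt i (mem_range.1 hi), zero_smul]
    rw [h3, zero_add]
    refine sum_congr rfl fun i _ => ?_
    rw [mul_smul_comm, ← pow_add]
  have h2 := (mul_eq_zero.1 h1).resolve_left (pow_ne_zero _ hw0)
  have h3 : d + 1 - i0 = (d - i0) + 1 := by omega
  rw [h3, sum_range_succ', pow_zero, Nat.add_zero] at h2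
  -- `c i0 = - w * w'`
  apply Sat.of_smul hci0
  have h4 : c i0 • z = ∑ i ∈ range (d - i0), (-(c (i0 + (i + 1)))) • (w ^ i * (w * z)) := by
    have h5 : c i0 • z = (c i0 • (1 : S)) * z := by rw [smul_mul_assoc, one_mul]
    have h6 : c i0 • (1 : S) = -∑ i ∈ range (d - i0), c (i0 + (i + 1)) • w ^ (i + 1) := by
      linear_combination h2
    rw [h5, h6, neg_mul, sum_mul, ← sum_neg_distrib]
    refine sum_congr rfl fun i _ => ?_
    rw [neg_smul, smul_mul_assoc, pow_succ, mul_assoc]
  rw [h4]
  exact Sat.sum fun i _ => ((hpow i).mul hP hPf hwz).smul _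

/-- **Algebraic elements satisfy linear differential equations.** -/
theorem ode (D : Derivation ℤ S S) (hD : ∀ r : R, ∃ r' : R, D (algebraMap R S r) = algebraMap R S r')
    {f : S} (hf : IsAlgebraic R f) :
    ∃ (d : ℕ) (c : ℕ → R), (∃ i ≤ d, c i ≠ 0) ∧ ∑ i ∈ range (d + 1), c i • (D^[i]) f = 0 := by
  classical
  -- a polynomial of least degree
  have hex : ∃ n : ℕ, ∃ P : R[X], P ≠ 0 ∧ aeval f P = 0 ∧ P.natDegree = n := by
    obtain ⟨P, hP, hPf⟩ := hf
    exact ⟨_, P, hP, hPf, rfl⟩
  obtain ⟨P, hP, hPf, hPd⟩ := Nat.find_spec hex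
  have hmin : ∀ Q : R[X], Q ≠ 0 → aeval f Q = 0 → P.natDegree ≤ Q.natDegree := by
    intro Q hQ hQf
    rw [hPd]
    exact Nat.find_min' hex ⟨Q, hQ, hQf, rfl⟩
  have hpos := natDegree_pos hP hPf
  have hder : aeval f (derivative P) ≠ 0 := by
    intro h0
    have h1 : derivative P ≠ 0 := by
      intro h2
      have := Polynomial.derivative_eq_zero.1 h2
      omega
    have h2 := hmin _ h1 h0
    have h3 := natDegree_derivative_lt (p := P) (by omega)
    omega
  set d := P.natDegree with hd
  -- the derivative of a value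
  have hDr : ∀ (r : R) (x : S), D (r • x) = (D (algebraMap R S r)) * x + r • D x := by
    intro r x
    rw [Algebra.smul_def, D.leibniz, smul_eq_mul, smul_eq_mul, Algebra.smul_def]
    ring
  have hval : ∀ Q : R[X], ∃ z : S, Sat R f d z ∧
      D (aeval f Q) = z + aeval f (derivative Q) * D f := by
    intro Q
    induction Q using Polynomial.induction_on' with
    | add p q hp hq =>
      obtain ⟨x, hx, hx'⟩ := hp
      obtain ⟨y, hy, hy'⟩ := hq
      refine ⟨x + y, hx.add hy, ?_⟩
      rw [map_add, map_add, hx', hy', derivative_add, map_add]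
      ring
    | monomial n r =>
      obtain ⟨r', hr'⟩ := hD r
      refine ⟨r' • f ^ n, ?_, ?_⟩
      · have := ((Sat.one hP hPf).pow_mul hP hPf n).smul r'
        rwa [mul_one] at this
      · rw [aeval_monomial, D.leibniz, derivative_monomial, aeval_monomial, hr', D.leibniz_pow,
          Algebra.smul_def r' (f ^ n)]
        simp only [smul_eq_mul, nsmul_eq_mul, map_mul, map_natCast]
        ring
  -- the derivative of `f`
  have hDf : Sat R f d (D f) := by
    obtain ⟨z, hz, hz'⟩ := hval P
    rw [hPf, map_zero] at hz'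
    refine Sat.div hP hPf hder (Sat.aeval hP hPf _) ?_
    have h1 : aeval f (derivative P) * D f = (-1 : R) • z := by
      rw [neg_smul, one_smul]
      linear_combination -hz'
    rw [h1]
    exact hz.smul _
  -- stability
  have hstab : ∀ z : S, Sat R f d z → Sat R f d (D z) := by
    rintro z ⟨r, c, hr, h⟩
    apply Sat.of_smul hr
    obtain ⟨r', hr'⟩ := hD r
    have h1 : r • D z = D (∑ i ∈ range d, c i • f ^ i) + (-r') • z := by
      rw [← h, hDr, hr', neg_smul, Algebra.smul_def r' z]
      ring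
    rw [h1]
    refine Sat.add ?_ (Sat.smul ⟨r, c, hr, h⟩ _)
    have h2 : ∑ i ∈ range d, c i • f ^ i = aeval f (∑ i ∈ range d, monomial i (c i)) := by
      rw [map_sum]
      refine sum_congr rfl fun i _ => ?_
      rw [aeval_monomial, Algebra.smul_def]
    rw [h2]
    obtain ⟨y, hy, hy'⟩ := hval (∑ i ∈ range d, monomial i (c i))
    rw [hy']
    exact hy.add ((Sat.aeval hP hPf _).mul hP hPf hDf)
  have hit : ∀ n : ℕ, Sat R f d ((D^[n]) f) := by
    intro n
    induction n with
    | zero =>
      rw [Function.iterate_zero, id]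
      have := Sat.aeval hP hPf (X : R[X])
      rwa [aeval_X] at this
    | succ n ih =>
      rw [Function.iterate_succ_apply']
      exact hstab _ ih
  obtain ⟨c, hc, hc'⟩ := Sat.dep hit
  exact ⟨d, c, hc, hc'⟩

end Pool.Agent.H609.GF
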