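import Pool.Agent.H609.GF.Values

/-!
# Many `r`-th roots of integers up to `X` are normal up to `c (log X) ^ 2` digits
-/

set_option autoImplicit false

namespace Pool.Agent.H609.GF

open Finset

open Classical in
/-- **Roots of integers.** -/
theorem roots (r : ℕ) (hr : 2 ≤ r) (b : ℕ) (hb : 2 ≤ b) (δ : ℝ) (hδ : 0 < δ) :
    ∃ c : ℝ, 0 < c ∧ ∀ w : ℕ, ∀ ε : ℝ, 0 < ε → ∃ X₀ : ℕ, ∀ X : ℕ, X₀ ≤ X →
      (X : ℝ) ^ (1 / (r : ℝ) - δ) ≤ ((((range (X + 1)).filter (fun N : ℕ =>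
        Irrational ((N : ℝ) ^ (1 / (r : ℝ))) ∧
        NormalUpTo b w ⌊c * Real.log X ^ 2⌋₊ ε (ε * Real.log X)
          ((N : ℝ) ^ (1 / (r : ℝ))))).card : ℕ) : ℝ) := by
  obtain ⟨A, c₀, hc₀, hval⟩ := values (rt_alg (by omega : 1 ≤ r)) (rt_not_rational hr)
  obtain ⟨nr, hnr⟩ := rt_val (by omega : 1 ≤ r) b hb
  have hr0 : (0 : ℝ) < r := by exact_mod_cast (by omega : 0 < r)
  have hr2 : (2 : ℝ) ≤ r := by exact_mod_cast hr
  have hb1 : 1 ≤ b := by omega
  have hbR1 : (1 : ℝ) ≤ b := by exact_mod_cast hb1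
  have hb0 : (0 : ℝ) < b := by linarith
  have hbR : (2 : ℝ) ≤ b := by exact_mod_cast hb
  obtain ⟨t0, ht0⟩ := exists_nat_gt (3 / δ)
  set t : ℕ := max A t0 with ht
  have htA : A ≤ t := le_max_left _ _
  have htδ : 3 ≤ t * δ := by
    have h1 : 3 / δ < t := lt_of_lt_of_le ht0 (by exact_mod_cast le_max_right _ _)
    rw [div_lt_iff₀ hδ] at h1
    exact h1.le
  set s : ℕ := r * (t + 1) + 1 with hs
  have hrt : 2 * (t + 1) ≤ r * (t + 1) := Nat.mul_le_mul_right _ hr
  have hs3 : 3 ≤ s := by omega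
  have hst : t ≤ s := by omega
  have hlogb : 1 / 2 ≤ Real.log b := by
    have h1 : Real.log 2 ≤ Real.log b := Real.log_le_log (by norm_num) hbR
    have h2 := Real.log_two_gt_d9
    linarith
  have hlogb0 : 0 < Real.log b := by linarith
  have hs0 : (0 : ℝ) < s := by exact_mod_cast (by omega : 0 < s)
  set c : ℝ := c₀ / (8 * (s * Real.log b) ^ 2) with hc
  refine ⟨c, by positivity, fun w ε hε => ?_⟩
  obtain ⟨κ, hκ, n1, hn1⟩ := hval b hb w ε hε
  obtain ⟨n2, hn2⟩ := exists_nat_gt (2 / c₀)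
  obtain ⟨n3, hn3⟩ := exists_nat_gt (Real.log 4 / κ)
  set n₀ : ℕ := (n1 + n2 + n3 + nr) + (t + 1) + 2 with hn₀
  refine ⟨(b ^ s) ^ n₀, fun X hX => ?_⟩
  have hbs : 1 < b ^ s := Nat.one_lt_pow (by omega) (by omega)
  have hX0 : X ≠ 0 := by
    intro h0
    rw [h0] at hX
    have : 0 < (b ^ s) ^ n₀ := by positivity
    omega
  set n : ℕ := Nat.log (b ^ s) X with hn
  have hn0 : n₀ ≤ n := (Nat.le_log_iff_pow_le hbs hX0).2 hX
  have hXl : (b ^ s) ^ n ≤ X := Nat.pow_log_le_self _ hX0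
  have hXu : X < (b ^ s) ^ (n + 1) := Nat.lt_pow_succ_log_self hbs X
  have hXlR : (b : ℝ) ^ (s * n) ≤ X := by
    rw [pow_mul]
    exact_mod_cast hXl
  have hXuR : (X : ℝ) ≤ (b : ℝ) ^ (s * (n + 1)) := by
    rw [pow_mul]
    exact_mod_cast hXu.le
  have hXpos : (0 : ℝ) < X := by exact_mod_cast Nat.pos_of_ne_zero hX0
  -- logarithms
  have hlogl : (s * n : ℝ) * Real.log b ≤ Real.log X := by
    have h1 := Real.log_le_log (by positivity) hXlR
    rw [Real.log_pow] at h1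
    push_cast at h1
    exact h1
  have hlogu : Real.log X ≤ (s * (n + 1) : ℝ) * Real.log b := by
    have h1 := Real.log_le_log hXpos hXuR
    rw [Real.log_pow] at h1
    push_cast at h1
    exact h1
  have hnR1 : (1 : ℝ) ≤ n := by exact_mod_cast (by omega : 1 ≤ n)
  have hlogX0 : 0 ≤ Real.log X := le_trans (by positivity) hlogl
  have hnlog : (n : ℝ) ≤ Real.log X := by
    refine le_trans ?_ hlogl
    have h1 : (3 : ℝ) ≤ s := by exact_mod_cast hs3
    have h2 : (1 : ℝ) ≤ s * Real.log b := by nlinarith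
    calc (n : ℝ) = n * 1 := (mul_one _).symm
      _ ≤ n * (s * Real.log b) := mul_le_mul_of_nonneg_left h2 (by positivity)
      _ = _ := by ring
  set D : ℕ := ⌊c * Real.log X ^ 2⌋₊ with hD
  have hDle : (D : ℝ) ≤ c₀ / 2 * (n : ℝ) ^ 2 := by
    have h1 : (D : ℝ) ≤ c * Real.log X ^ 2 := Nat.floor_le (by positivity)
    refine h1.trans ?_
    have h2 : Real.log X ≤ 2 * n * (s * Real.log b) := by
      refine hlogu.trans ?_
      have h3 : ((n : ℝ) + 1) ≤ 2 * n := by linarith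
      calc (s * (n + 1) : ℝ) * Real.log b = (n + 1) * (s * Real.log b) := by ring
        _ ≤ _ := mul_le_mul_of_nonneg_right h3 (by positivity)
    have h3 : Real.log X ^ 2 ≤ (2 * n * (s * Real.log b)) ^ 2 := pow_le_pow_left₀ hlogX0 h2 2
    calc c * Real.log X ^ 2 ≤ c * (2 * n * (s * Real.log b)) ^ 2 :=
          mul_le_mul_of_nonneg_left h3 (by positivity)
      _ = c₀ / 2 * (n : ℝ) ^ 2 := by
          rw [hc]
          field_simp
          ring
  have hDn : ((D + n : ℕ) : ℝ) ≤ c₀ * (n : ℝ) ^ 2 := by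
    have h1 : (n : ℝ) ≤ c₀ / 2 * (n : ℝ) ^ 2 := by
      have h2 : 2 / c₀ < n := lt_of_lt_of_le hn2 (by exact_mod_cast (by omega : n2 ≤ n))
      rw [div_lt_iff₀ hc₀] at h2
      nlinarith
    push_cast
    linarith
  -- the numbers
  obtain ⟨hsm, hirr, -, hmost⟩ := hn1 n (by omega)
  obtain ⟨hpos, hpow⟩ := hnr n (by omega) hsm
  set α : ℝ := ev (((b : ℝ) ^ n)⁻¹) (rt r) with hα
  set M : ℕ := b ^ (t * n) with hM
  have hMA : b ^ (A * n) ≤ M := Nat.pow_le_pow_right hb1 (Nat.mul_le_mul_right _ htA)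
  have hcount := hmost M hMA 0 (D + n) hDn
  have hexp : Real.exp (-(κ * n)) ≤ 1 / 4 := by
    have h1 : Real.log 4 / κ < n := lt_of_lt_of_le hn3 (by exact_mod_cast (by omega : n3 ≤ n))
    rw [div_lt_iff₀ hκ] at h1
    have h2 : -(κ * n) ≤ -Real.log 4 := by linarith
    calc Real.exp (-(κ * n)) ≤ Real.exp (-Real.log 4) := Real.exp_le_exp.2 h2
      _ = 1 / 4 := by rw [Real.exp_neg, Real.exp_log (by norm_num)]; norm_num
  -- the integers
  let Nf : ℕ → ℕ := fun m => m ^ r * (b ^ ((r - 1) * n) * (b ^ n + 1))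
  have hNroot : ∀ m : ℕ, ((Nf m : ℕ) : ℝ) ^ (1 / (r : ℝ)) = (b : ℝ) ^ n * (0 + m * α) := by
    intro m
    have h1 : ((Nf m : ℕ) : ℝ) = ((b : ℝ) ^ n * (m * α)) ^ r := by
      simp only [Nf]
      push_cast
      rw [mul_pow, mul_pow, hpow]
      have h2 : ((b : ℝ) ^ n) ^ r = (b : ℝ) ^ ((r - 1) * n) * (b : ℝ) ^ n := by
        rw [← pow_mul, ← pow_add]
        congr 1
        obtain ⟨r', rfl⟩ : ∃ r', r = r' + 1 := ⟨r - 1, by omega⟩
        rw [Nat.add_sub_cancel]
        ring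
      rw [h2]
      field_simp
    rw [h1, zero_add, one_div]
    exact Real.pow_rpow_inv_natCast (by positivity) (by omega)
  have hNle : ∀ m : ℕ, m < M → Nf m ≤ X := by
    intro m hm
    refine le_trans ?_ hXl
    have h1 : m ^ r ≤ b ^ (r * t * n) := by
      calc m ^ r ≤ M ^ r := Nat.pow_le_pow_left hm.le r
        _ = b ^ (r * t * n) := by rw [hM, ← pow_mul]; congr 1; ring
    have h2 : b ^ n + 1 ≤ b ^ (2 * n) := by
      have h3 : 2 ≤ b ^ n := by
        calc 2 ≤ b := hb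
          _ = b ^ 1 := (pow_one b).symm
          _ ≤ b ^ n := Nat.pow_le_pow_right hb1 (by omega)
      rw [two_mul n, pow_add]
      calc b ^ n + 1 ≤ b ^ n + b ^ n := by omega
        _ = 2 * b ^ n := by ring
        _ ≤ b ^ n * b ^ n := Nat.mul_le_mul_right _ h3
    calc Nf m ≤ b ^ (r * t * n) * (b ^ ((r - 1) * n) * b ^ (2 * n)) :=
          Nat.mul_le_mul h1 (Nat.mul_le_mul_left _ h2)
      _ = b ^ (r * t * n + (r - 1) * n + 2 * n) := by
          rw [pow_add, pow_add, ← Nat.mul_assoc (b ^ (r * t * n))]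
      _ = (b ^ s) ^ n := by
          rw [← pow_mul]
          congr 1
          obtain ⟨r', rfl⟩ : ∃ r', r = r' + 1 := ⟨r - 1, by omega⟩
          rw [Nat.add_sub_cancel, hs]
          ring
  have hNinj : Function.Injective Nf := by
    intro m m' h
    have h0 : m ^ r * (b ^ ((r - 1) * n) * (b ^ n + 1)) =
      m' ^ r * (b ^ ((r - 1) * n) * (b ^ n + 1)) := h
    have h1 : 0 < b ^ ((r - 1) * n) * (b ^ n + 1) := by positivity
    have h2 : m ^ r = m' ^ r := Nat.eq_of_mul_eq_mul_right h1 h0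
    have hr1 : r ≠ 0 := by omega
    rcases lt_trichotomy m m' with h3 | h3 | h3
    · exact absurd h2 (Nat.pow_lt_pow_left h3 hr1).ne
    · exact h3
    · exact absurd h2 (Nat.pow_lt_pow_left h3 hr1).ne'
  -- the good integers
  set bad := (range M).filter (fun m : ℕ => ¬ NormalUpTo b w (D + n) ε (ε * n) (0 + m * α)) with hbad
  have hsub : (((range M) \ bad).erase 0).image Nf ⊆ (range (X + 1)).filter (fun N : ℕ =>
        Irrational ((N : ℝ) ^ (1 / (r : ℝ))) ∧
        NormalUpTo b w D ε (ε * Real.log X) ((N : ℝ) ^ (1 / (r : ℝ)))) := by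
    intro N hN
    rw [mem_image] at hN
    obtain ⟨m, hm, rfl⟩ := hN
    rw [mem_erase, mem_sdiff, mem_range] at hm
    obtain ⟨hm0, hmM, hmb⟩ := hm
    rw [hbad, mem_filter, not_and, not_not] at hmb
    have hgood := hmb (mem_range.2 hmM)
    rw [mem_filter, mem_range]
    refine ⟨Nat.lt_succ_of_le (hNle m hmM), ?_, ?_⟩
    · rw [hNroot, zero_add]
      have h1 : Irrational (((b ^ n * m : ℕ) : ℝ) * α) := by
        refine hirr.natCast_mul ?_
        positivity
      push_cast at h1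
      rwa [mul_assoc] at h1
    · rw [hNroot]
      exact (hgood.shift).mono le_rfl le_rfl (mul_le_mul_of_nonneg_left hnlog hε.le)
  refine le_trans ?_ (Nat.cast_le.2 (card_le_card hsub))
  rw [card_image_of_injective _ hNinj]
  have hcard1 : ((range M) \ bad).card ≤ (((range M) \ bad).erase 0).card + 1 := by
    have := pred_card_le_card_erase (s := (range M) \ bad) (a := 0)
    omega
  have hcard2 : M ≤ ((range M) \ bad).card + bad.card := by
    have := card_le_card_sdiff_add_card (s := range M) (t := bad)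
    rwa [card_range] at this
  have hcR1 : ((((range M) \ bad).card : ℕ) : ℝ) ≤ (((((range M) \ bad).erase 0).card : ℕ) : ℝ) + 1 := by
    exact_mod_cast hcard1
  have hcR2 : (M : ℝ) ≤ ((((range M) \ bad).card : ℕ) : ℝ) + ((bad.card : ℕ) : ℝ) := by
    exact_mod_cast hcard2
  have hM0 : (0 : ℝ) < M := by rw [hM]; positivity
  have hbadM : ((bad.card : ℕ) : ℝ) ≤ M * (1 / 4) :=
    hcount.trans (mul_le_mul_of_nonneg_left hexp hM0.le)
  have ht1 : 1 ≤ t := by
    by_contra hcon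
    have : t = 0 := by omega
    rw [this] at htδ
    norm_num at htδ
  have htn : 2 ≤ t * n := by
    calc 2 = 1 * 2 := rfl
      _ ≤ t * n := Nat.mul_le_mul ht1 (by omega)
  have hM4 : (4 : ℝ) ≤ M := by
    have h1 : 2 ≤ t * n := htn
    have h2 : 4 ≤ M := by
      calc 4 = 2 ^ 2 := by norm_num
        _ ≤ b ^ 2 := Nat.pow_le_pow_left hb 2
        _ ≤ M := Nat.pow_le_pow_right hb1 h1
    exact_mod_cast h2
  have hfin : (M : ℝ) / 4 ≤ (((((range M) \ bad).erase 0).card : ℕ) : ℝ) := by linarith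
  refine le_trans ?_ hfin
  rcases le_or_gt (1 / (r : ℝ) - δ) 0 with h0 | h0
  · have h1 : (1 : ℝ) ≤ X := by exact_mod_cast Nat.pos_of_ne_zero hX0
    have h2 := Real.rpow_le_rpow_of_exponent_le h1 h0
    rw [Real.rpow_zero] at h2
    linarith
  · have h1 : (X : ℝ) ^ (1 / (r : ℝ) - δ) ≤ ((b : ℝ) ^ (s * (n + 1))) ^ (1 / (r : ℝ) - δ) :=
      Real.rpow_le_rpow hXpos.le hXuR h0.le
    refine h1.trans ?_
    rw [← Real.rpow_natCast, ← Real.rpow_mul hb0.le]
    have h2 : ((s * (n + 1) : ℕ) : ℝ) * (1 / (r : ℝ) - δ) ≤ ((t * n - 2 : ℕ) : ℝ) := by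
      have h3 : (s : ℝ) * (1 / (r : ℝ) - δ) ≤ t - 1 := by
        have h4 : (s : ℝ) * (1 / r) = t + 1 + 1 / r := by
          rw [hs]
          push_cast
          field_simp
        have h5 : 1 / (r : ℝ) ≤ 1 := by
          rw [div_le_one hr0]
          linarith
        have h6 : (t : ℝ) * δ ≤ s * δ :=
          mul_le_mul_of_nonneg_right (by exact_mod_cast hst) hδ.le
        rw [mul_sub, h4]
        linarith
      have h4 : ((t * n - 2 : ℕ) : ℝ) = t * n - 2 := by
        rw [Nat.cast_sub htn]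
        push_cast
        ring
      rw [h4]
      push_cast
      have h5 : (t : ℝ) + 1 ≤ n := by exact_mod_cast (by omega : t + 1 ≤ n)
      calc (s * ((n : ℝ) + 1)) * (1 / (r : ℝ) - δ) = (n + 1) * (s * (1 / (r : ℝ) - δ)) := by ring
        _ ≤ (n + 1) * (t - 1) := mul_le_mul_of_nonneg_left h3 (by positivity)
        _ ≤ _ := by nlinarith
    refine (Real.rpow_le_rpow_of_exponent_le hbR1 h2).trans ?_
    rw [Real.rpow_natCast]
    have h3 : (M : ℝ) = (b : ℝ) ^ (t * n - 2) * (b : ℝ) ^ 2 := by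
      rw [hM, ← pow_add]
      push_cast
      congr 1
      omega
    rw [h3]
    have h4 : (4 : ℝ) ≤ (b : ℝ) ^ 2 := by nlinarith
    have h5 : (0 : ℝ) < (b : ℝ) ^ (t * n - 2) := by positivity
    rw [le_div_iff₀ (by norm_num)]
    exact mul_le_mul_of_nonneg_left h4 h5.le

end Pool.Agent.H609.GF
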