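import Pool.Agent.H609.GF.Irr2

/-!
# The digits of the values of algebraic functions, and of the roots of integers
-/

set_option autoImplicit false

namespace Pool.Agent.H609.GF

open Finset PowerSeries

open Classical in
/-- **The values of algebraic functions at `b ^ (-n)`.** -/
theorem values {f : ℚ⟦X⟧} (hf : IsAlgebraic (Polynomial ℚ) f)
    (hr : ∀ P Q : Polynomial ℚ, (Q : ℚ⟦X⟧) * f = (P : ℚ⟦X⟧) → Q = 0) :
    ∃ A : ℕ, ∃ c : ℝ, 0 < c ∧ ∀ b : ℕ, 2 ≤ b → ∀ w : ℕ, ∀ ε : ℝ, 0 < ε →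
      ∃ κ : ℝ, 0 < κ ∧ ∃ n₀ : ℕ, ∀ n : ℕ, n₀ ≤ n → Sm (((b : ℝ) ^ n)⁻¹) f ∧
        Irrational (ev (((b : ℝ) ^ n)⁻¹) f) ∧
        (∃ R : Polynomial ℤ, R ≠ 0 ∧ R.natDegree ≤ A ∧ (∀ k, |R.coeff k| ≤ (b : ℤ) ^ (A * n)) ∧
          Polynomial.aeval (ev (((b : ℝ) ^ n)⁻¹) f) R = 0) ∧
        ∀ M : ℕ, b ^ (A * n) ≤ M → ∀ y : ℝ, ∀ D : ℕ, (D : ℝ) ≤ c * (n : ℝ) ^ 2 →
          ((((range M).filter (fun m : ℕ =>
            ¬ NormalUpTo b w D ε (ε * n) (y + m * ev (((b : ℝ) ^ n)⁻¹) f))).card : ℕ) : ℝ) ≤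
            M * Real.exp (-(κ * n)) := by
  have hnp : ¬ ∃ P : Polynomial ℚ, (P : ℚ⟦X⟧) = f := by
    rintro ⟨P, hP⟩
    have := hr P 1 (by rw [hP]; simp)
    exact one_ne_zero this
  obtain ⟨C, g, hGS⟩ := gs_of_alg hf hnp
  obtain ⟨A, hA⟩ := int_rel hf
  refine ⟨max A (g + 3), 1 / (16 * (C + 1)), by positivity, fun b hb w ε hε => ?_⟩
  have hb1 : 1 ≤ b := by omega
  obtain ⟨n1, hn1⟩ := hA b hb
  obtain ⟨n2, hn2⟩ := irr hf hr b hb
  obtain ⟨κ, hκ, n3, hn3⟩ := main hGS b hb w ε hε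
  refine ⟨κ, hκ, max (max n1 n2) (max n3 (C + 1)), fun n hn => ?_⟩
  have hnn1 : n1 ≤ n := le_of_max_le_left (le_of_max_le_left hn)
  have hnn2 : n2 ≤ n := le_of_max_le_right (le_of_max_le_left hn)
  have hnn3 : n3 ≤ n := le_of_max_le_left (le_of_max_le_right hn)
  have hnC : C + 1 ≤ n := le_of_max_le_right (le_of_max_le_right hn)
  have hsm : Sm (((b : ℝ) ^ n)⁻¹) f := (summable_val hGS.size b hb n hnC).norm
  refine ⟨hsm, hn2 n hnn2 hsm, ?_, ?_⟩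
  · obtain ⟨R, hR0, hRd, hRc, hRe⟩ := hn1 n hnn1 hsm
    refine ⟨R, hR0, hRd.trans (le_max_left _ _), fun k => (hRc k).trans ?_, hRe⟩
    exact pow_le_pow_right₀ (by exact_mod_cast hb1) (Nat.mul_le_mul_right _ (le_max_left _ _))
  · intro M hM y D hD
    have h1 : b ^ ((g + 3) * n) ≤ M :=
      (Nat.pow_le_pow_right hb1 (Nat.mul_le_mul_right _ (le_max_right _ _))).trans hM
    exact hn3 n hnn3 D M hD h1 y

/-- the series of the `r`-th root of `1 + X` -/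
noncomputable def rt (r : ℕ) : ℚ⟦X⟧ := PowerSeries.binomialSeries ℚ ((1 : ℚ) / r)

lemma bin_pow (s : ℚ) (k : ℕ) : (PowerSeries.binomialSeries ℚ s) ^ k = PowerSeries.binomialSeries ℚ ((k : ℚ) * s) := by
  induction k with
  | zero => simp
  | succ k ih =>
    rw [pow_succ, ih, ← binomialSeries_add]
    congr 1
    push_cast
    ring

lemma rt_pow {r : ℕ} (hr : 1 ≤ r) : (rt r) ^ r = 1 + X := by
  have h0 : (r : ℚ) ≠ 0 := by exact_mod_cast (by omega : r ≠ 0)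
  unfold rt
  rw [bin_pow, mul_one_div_cancel h0]
  have := binomialSeries_nat (R := ℚ) (A := ℚ) 1
  simpa using this

lemma rt_alg {r : ℕ} (hr : 1 ≤ r) : IsAlgebraic (Polynomial ℚ) (rt r) := by
  refine ⟨Polynomial.X ^ r - Polynomial.C (1 + Polynomial.X), ?_, ?_⟩
  · exact Polynomial.X_pow_sub_C_ne_zero (by omega) _
  · rw [map_sub, map_pow, Polynomial.aeval_X, rt_pow hr, Polynomial.aeval_C]
    have h : algebraMap (Polynomial ℚ) ℚ⟦X⟧ (1 + Polynomial.X) =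
        ((1 + Polynomial.X : Polynomial ℚ) : ℚ⟦X⟧) := by
      rw [PowerSeries.algebraMap_apply', Algebra.algebraMap_self, PowerSeries.map_id]
      rfl
    rw [h]
    simp

lemma rt_not_rational {r : ℕ} (hr : 2 ≤ r) (P Q : Polynomial ℚ)
    (h : (Q : ℚ⟦X⟧) * rt r = (P : ℚ⟦X⟧)) : Q = 0 := by
  by_contra hQ
  have h1 : (Q : ℚ⟦X⟧) ^ r * (1 + X) = (P : ℚ⟦X⟧) ^ r := by
    rw [← rt_pow (by omega : 1 ≤ r), ← mul_pow, h]
  have h2 : Q ^ r * (1 + Polynomial.X) = P ^ r := by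
    apply Polynomial.coe_injective ℚ
    push_cast
    simpa using h1
  have hX : (1 + Polynomial.X : Polynomial ℚ) = Polynomial.X + Polynomial.C 1 := by
    rw [Polynomial.C_1, add_comm]
  have hX0 : (1 + Polynomial.X : Polynomial ℚ) ≠ 0 := by
    rw [hX]
    exact Polynomial.X_add_C_ne_zero 1
  have h3 := congrArg Polynomial.natDegree h2
  rw [Polynomial.natDegree_mul (pow_ne_zero _ hQ) hX0, Polynomial.natDegree_pow,
    Polynomial.natDegree_pow, hX, Polynomial.natDegree_X_add_C] at h3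
  have h4 : r ∣ 1 := by
    have h5 : r ∣ r * Q.natDegree + 1 := by rw [h3]; exact dvd_mul_right _ _
    exact (Nat.dvd_add_right (dvd_mul_right _ _)).1 h5
  have := Nat.dvd_one.1 h4
  omega

lemma rt_val {r : ℕ} (hr : 1 ≤ r) (b : ℕ) (hb : 2 ≤ b) : ∃ n₀ : ℕ, ∀ n, n₀ ≤ n →
    Sm (((b : ℝ) ^ n)⁻¹) (rt r) → 0 < ev (((b : ℝ) ^ n)⁻¹) (rt r) ∧
      ev (((b : ℝ) ^ n)⁻¹) (rt r) ^ r = 1 + ((b : ℝ) ^ n)⁻¹ := by
  obtain ⟨C, hC, h⟩ := SG_of_alg (rt_alg hr)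
  have hsize : ∀ k, |((coeff k (rt r) : ℚ) : ℝ)| ≤ (C : ℝ) ^ (k + 1) := by
    intro k
    have := (h k).1
    exact_mod_cast this
  have hb0 : (0 : ℝ) < b := by exact_mod_cast (by omega : 0 < b)
  have hb1 : (1 : ℝ) ≤ b := by exact_mod_cast (by omega : 1 ≤ b)
  have hbR : (2 : ℝ) ≤ b := by exact_mod_cast hb
  refine ⟨2 * C + 2, fun n hn hsm => ?_⟩
  set x : ℝ := ((b : ℝ) ^ n)⁻¹ with hx
  obtain ⟨τ, hτ, hτ'⟩ := split_val (a := fun k => coeff k (rt r)) hsize b hb n (by omega) 1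
  have hval : ev x (rt r) = 1 + τ := by
    have h1 : ev x (rt r) = val (fun k => coeff k (rt r)) b n := rfl
    rw [h1, hτ, sum_range_one]
    congr 1
    have h2 : coeff 0 (rt r) = 1 := by
      unfold rt
      simp
    rw [h2]
    simp
  have hτ2 : |τ| ≤ 1 / 2 := by
    refine hτ'.trans ?_
    rw [pow_one]
    have h1 : 2 * (b : ℝ) ^ C * ((b : ℝ) ^ C * x) = 2 * (b : ℝ) ^ (2 * C) * x := by
      rw [two_mul C, pow_add]
      ring
    rw [h1, hx, ← div_eq_mul_inv, div_le_div_iff₀ (by positivity) (by norm_num)]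
    calc 2 * (b : ℝ) ^ (2 * C) * 2 = 2 ^ 2 * (b : ℝ) ^ (2 * C) := by ring
      _ ≤ (b : ℝ) ^ 2 * (b : ℝ) ^ (2 * C) := by gcongr
      _ = (b : ℝ) ^ (2 + 2 * C) := by rw [pow_add]
      _ ≤ (b : ℝ) ^ n := pow_le_pow_right₀ hb1 (by omega)
      _ = _ := by rw [one_mul]
  constructor
  · rw [hval]
    have := neg_abs_le τ
    linarith
  · have h1 : ∀ k, ev x ((rt r) ^ k) = ev x (rt r) ^ k := by
      intro k
      have := map_pow (evA x) ⟨rt r, hsm⟩ k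
      exact this
    rw [← h1, rt_pow hr]
    have h2 := ev_poly x (1 + Polynomial.X)
    simpa using h2

lemma NormalUpTo.shift {b w D n : ℕ} {ε E z : ℝ} (h : NormalUpTo b w (D + n) ε E z) :
    NormalUpTo b w D ε E ((b : ℝ) ^ n * z) := by
  intro k s N j hk hkw hj hsN
  have h1 := h k (s + n) N j hk hkw hj (by omega)
  have h2 : ∀ i, word b k (s + i) ((b : ℝ) ^ n * z) = word b k (s + n + i) z := by
    intro i
    unfold word
    congr 3
    rw [← mul_assoc, ← pow_add]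
    congr 2
    omega
  simpa only [h2] using h1

end Pool.Agent.H609.GF
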