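import Pool.Graph.R_seed8.Y961.JR.Class
import Pool.Graph.R_pool_sql_team_seeded_3997aac3.Q263.JM.Win

/-!
# One window of digits: points which are spread in the dual sense, and rare words
-/

set_option autoImplicit false

namespace Pool.Agent.H609.GF

open Finset Real
open Pool.Agent.H469R2.NK (e norm_e e_add conj_e e_zero)
open Pool.Agent.Q263.JM (occw bad_words floor_eq_of_digits)

/-- the kernel is large near the integers -/
lemma kernel_large (U : ℕ) (hU : 1 ≤ U) (x : ℝ) (p : ℤ) (hx : |x - p| ≤ 1 / (8 * U)) :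
    (U : ℝ) ^ 2 / 2 ≤ ‖∑ j ∈ range U, e (j * x)‖ ^ 2 := by
  have hU0 : (0 : ℝ) < U := by exact_mod_cast hU
  have h1 : ∀ j ∈ range U, √2 / 2 ≤ (e (j * x)).re := by
    intro j hj
    have hjU : (j : ℝ) ≤ U := by exact_mod_cast (mem_range.1 hj).le
    have e1 : (e (j * x)).re = cos (2 * π * (j * (x - p))) := by
      unfold e
      rw [Complex.exp_ofReal_mul_I_re]
      have e2 : 2 * π * ((j : ℝ) * x) = 2 * π * (j * (x - p)) + ((j * p : ℤ) : ℝ) * (2 * π) := by
        push_cast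
        ring
      rw [e2, Real.cos_add_int_mul_two_pi]
    rw [e1, ← Real.cos_pi_div_four, ← Real.cos_abs (2 * π * (j * (x - p)))]
    have hpi := Real.pi_pos
    have h3 : |2 * π * ((j : ℝ) * (x - p))| ≤ π / 4 := by
      rw [abs_mul, abs_of_pos (by positivity : (0 : ℝ) < 2 * π), abs_mul, Nat.abs_cast]
      have h4 : (j : ℝ) * |x - p| ≤ U * (1 / (8 * U)) :=
        mul_le_mul hjU hx (abs_nonneg _) hU0.le
      have h5 : (U : ℝ) * (1 / (8 * U)) = 1 / 8 := by field_simp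
      rw [h5] at h4
      nlinarith
    exact Real.cos_le_cos_of_nonneg_of_le_pi (abs_nonneg _) (by linarith) h3
  have h2 : (U : ℝ) * (√2 / 2) ≤ (∑ j ∈ range U, e (j * x)).re := by
    rw [Complex.re_sum]
    calc (U : ℝ) * (√2 / 2) = ∑ _j ∈ range U, √2 / 2 := by
          rw [sum_const, card_range, nsmul_eq_mul]
      _ ≤ _ := sum_le_sum h1
  have h3 : (U : ℝ) * (√2 / 2) ≤ ‖∑ j ∈ range U, e (j * x)‖ := h2.trans (Complex.re_le_norm _)
  have h4 : ((U : ℝ) * (√2 / 2)) ^ 2 = (U : ℝ) ^ 2 / 2 := by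
    rw [mul_pow, div_pow, Real.sq_sqrt (by norm_num)]
    ring
  rw [← h4]
  exact pow_le_pow_left₀ (by positivity) h3 2

/-- the mean of the kernel -/
lemma kernel_mean (U M : ℕ) (y β ρ : ℝ) (hρ : 0 < ρ)
    (h : ∀ u : ℕ, 1 ≤ u → u < U → ∀ m : ℤ, ρ ≤ |(u : ℝ) * β - m|) :
    ∑ m ∈ range M, ‖∑ j ∈ range U, e (j * (y + m * β))‖ ^ 2 ≤
      (U : ℝ) * M + (U : ℝ) ^ 2 * (2 / ρ) := by
  classical
  have key : ∀ j ∈ range U, ∀ j' ∈ range U,
      ‖∑ m ∈ range M, e (j * (y + m * β)) * (starRingEnd ℂ) (e (j' * (y + m * β)))‖ ≤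
        (if j = j' then (M : ℝ) else 0) + 2 / ρ := by
    intro j hj j' hj'
    have hρ2 : (0 : ℝ) ≤ 2 / ρ := by positivity
    have e1 : ∀ m : ℕ, e (j * (y + m * β)) * (starRingEnd ℂ) (e (j' * (y + m * β))) =
        e (((j : ℝ) - j') * y + m * (((j : ℝ) - j') * β)) := by
      intro m
      rw [conj_e, ← e_add]
      congr 1
      ring
    simp only [e1]
    split_ifs with hjj
    · have : ‖∑ m ∈ range M, e (((j : ℝ) - j') * y + m * (((j : ℝ) - j') * β))‖ ≤ M := by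
        refine (norm_sum_le _ _).trans ?_
        simp only [norm_e]
        rw [sum_const, card_range, nsmul_eq_mul, mul_one]
      linarith
    · rw [zero_add]
      apply Pool.Agent.Y961.JR.geom_bound _ _ _ hρ
      intro m
      rw [mem_range] at hj hj'
      rcases lt_or_gt_of_ne hjj with h1 | h1
      · obtain ⟨d, rfl⟩ : ∃ d, j' = j + d := ⟨j' - j, by omega⟩
        have h2 := h d (by omega) (by omega) (-m)
        have e2 : ((j : ℝ) - ((j + d : ℕ) : ℝ)) * β - m = -((d : ℝ) * β - ((-m : ℤ) : ℝ)) := by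
          push_cast
          ring
        rw [e2, abs_neg]
        exact h2
      · obtain ⟨d, rfl⟩ : ∃ d, j = j' + d := ⟨j - j', by omega⟩
        have h2 := h d (by omega) (by omega) m
        have e2 : (((j' + d : ℕ) : ℝ) - j') * β - m = (d : ℝ) * β - m := by
          push_cast
          ring
        rw [e2]
        exact h2
  have e0 : ((∑ m ∈ range M, ‖∑ j ∈ range U, e (j * (y + m * β))‖ ^ 2 : ℝ) : ℂ) =
      ∑ j ∈ range U, ∑ j' ∈ range U,
        ∑ m ∈ range M, e (j * (y + m * β)) * (starRingEnd ℂ) (e (j' * (y + m * β))) := by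
    push_cast
    rw [Finset.sum_congr rfl fun j _ => Finset.sum_comm, Finset.sum_comm]
    refine sum_congr rfl fun m _ => ?_
    rw [← Complex.mul_conj', map_sum, sum_mul_sum]
  have h1 : ∑ m ∈ range M, ‖∑ j ∈ range U, e (j * (y + m * β))‖ ^ 2 =
      ‖((∑ m ∈ range M, ‖∑ j ∈ range U, e (j * (y + m * β))‖ ^ 2 : ℝ) : ℂ)‖ := by
    rw [Complex.norm_real, Real.norm_of_nonneg (sum_nonneg fun _ _ => by positivity)]
  rw [h1, e0]
  refine (norm_sum_le _ _).trans ?_
  calc ∑ j ∈ range U, ‖∑ j' ∈ range U,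
        ∑ m ∈ range M, e (j * (y + m * β)) * (starRingEnd ℂ) (e (j' * (y + m * β)))‖
      ≤ ∑ j ∈ range U, ∑ j' ∈ range U, ((if j = j' then (M : ℝ) else 0) + 2 / ρ) := by
        refine sum_le_sum fun j hj => (norm_sum_le _ _).trans (sum_le_sum fun j' hj' => ?_)
        exact key j hj j' hj'
    _ = (U : ℝ) * M + (U : ℝ) ^ 2 * (2 / ρ) := by
        have e3 : ∀ j ∈ range U, ∑ j' ∈ range U, ((if j = j' then (M : ℝ) else 0) + 2 / ρ) =
            M + U * (2 / ρ) := by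
          intro j hj
          rw [sum_add_distrib, sum_ite_eq, if_pos hj, sum_const, card_range, nsmul_eq_mul]
        rw [sum_congr rfl e3, sum_const, card_range, nsmul_eq_mul]
        ring

/-- few points in a short arc -/
theorem arc (U M : ℕ) (hU : 1 ≤ U) (y β ρ c : ℝ) (hρ : 0 < ρ)
    (h : ∀ u : ℕ, 1 ≤ u → u < U → ∀ m : ℤ, ρ ≤ |(u : ℝ) * β - m|)
    (T : Finset ℕ) (hT : T ⊆ range M)
    (hTc : ∀ m ∈ T, ∃ p : ℤ, |y + m * β - c - p| ≤ 1 / (8 * U)) :
    (T.card : ℝ) ≤ 2 * M / U + 4 / ρ := by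
  have hU0 : (0 : ℝ) < U := by exact_mod_cast hU
  have h1 := kernel_mean U M (y - c) β ρ hρ h
  have h2 : (T.card : ℝ) * ((U : ℝ) ^ 2 / 2) ≤
      ∑ m ∈ range M, ‖∑ j ∈ range U, e (j * (y - c + m * β))‖ ^ 2 := by
    calc (T.card : ℝ) * ((U : ℝ) ^ 2 / 2) = ∑ _m ∈ T, (U : ℝ) ^ 2 / 2 := by
          rw [sum_const, nsmul_eq_mul]
      _ ≤ ∑ m ∈ T, ‖∑ j ∈ range U, e (j * (y - c + m * β))‖ ^ 2 := by
          refine sum_le_sum fun m hm => ?_
          obtain ⟨p, hp⟩ := hTc m hm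
          refine kernel_large U hU _ p ?_
          rwa [show y - c + m * β - p = y + m * β - c - p by ring]
      _ ≤ _ := sum_le_sum_of_subset_of_nonneg hT fun _ _ _ => by positivity
  have h3 := h2.trans h1
  have h4 : (T.card : ℝ) * ((U : ℝ) ^ 2 / 2) ≤ (2 * M / U + 4 / ρ) * ((U : ℝ) ^ 2 / 2) := by
    refine h3.trans (le_of_eq ?_)
    field_simp
    ring
  exact le_of_mul_le_mul_right h4 (by positivity)

/-- few points with a given beginning -/
theorem cell (D M : ℕ) (hD : 4 ≤ D) (y β ρ : ℝ) (hρ : 0 < ρ)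
    (h : ∀ u : ℕ, 1 ≤ u → u < D → ∀ m : ℤ, ρ ≤ |(u : ℝ) * β - m|) (W : ℤ) :
    (((range M).filter (fun m : ℕ => ⌊(D : ℝ) * Int.fract (y + m * β)⌋ = W)).card : ℝ) ≤
      16 * M / D + 4 / ρ := by
  have hD0 : (0 : ℝ) < D := by exact_mod_cast (by omega : 0 < D)
  set U : ℕ := D / 4 with hU
  have hU1 : 1 ≤ U := by omega
  have hU0 : (0 : ℝ) < U := by exact_mod_cast hU1
  have hUD : 4 * U ≤ D := by omega
  have hDU : D ≤ 8 * U := by omega
  have hUD' : (4 : ℝ) * U ≤ D := by exact_mod_cast hUD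
  have hDU' : (D : ℝ) ≤ 8 * U := by exact_mod_cast hDU
  refine (arc U M hU1 y β ρ ((W + 1 / 2) / D) hρ (fun u hu hu' => h u hu (by omega)) _
    (filter_subset _ _) ?_).trans ?_
  · intro m hm
    rw [mem_filter] at hm
    refine ⟨⌊y + m * β⌋, ?_⟩
    have h1 := Int.floor_le ((D : ℝ) * Int.fract (y + m * β))
    have h2 := Int.lt_floor_add_one ((D : ℝ) * Int.fract (y + m * β))
    rw [hm.2] at h1 h2
    have e1 : y + m * β - (W + 1 / 2) / D - ⌊y + m * β⌋ =
        (D * Int.fract (y + m * β) - (W + 1 / 2)) / D := by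
      rw [← Int.self_sub_floor]
      field_simp
      ring
    rw [e1, abs_div, abs_of_pos hD0, div_le_div_iff₀ hD0 (by positivity)]
    have h3 : |(D : ℝ) * Int.fract (y + m * β) - (W + 1 / 2)| ≤ 1 / 2 := by
      rw [abs_le]
      constructor <;> linarith
    nlinarith [abs_nonneg ((D : ℝ) * Int.fract (y + m * β) - (W + 1 / 2))]
  · have h1 : 2 * (M : ℝ) / U ≤ 16 * M / D := by
      rw [div_le_div_iff₀ hU0 hD0]
      have : (0 : ℝ) ≤ M := Nat.cast_nonneg _
      nlinarith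
    linarith

/-- **One window.** -/
theorem window (B L M : ℕ) (hB : 1 ≤ B) (Y : ℕ → ℝ) (Q : ℝ) (hQ0 : 0 ≤ Q)
    (hQ : ∀ W : ℤ, (((range M).filter
      (fun m => ⌊(B : ℝ) ^ L * Int.fract (Y m)⌋ = W)).card : ℝ) ≤ Q)
    (a : ℕ) (ha : a < B) (η : ℝ) (hη : 0 < η) (hη1 : η ≤ 1) :
    (((range M).filter (fun m => η * L < |((((range L).filter (fun i =>
      ⌊(B : ℝ) * Int.fract ((B : ℝ) ^ i * Y m)⌋₊ = a)).card : ℕ) : ℝ) -
        L / (B : ℝ)|)).card : ℝ) ≤
      2 * Real.exp (-(η ^ 2 / 4) * L) * (B : ℝ) ^ L * Q := by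
  classical
  have hB0 : (0 : ℝ) < B := by exact_mod_cast hB
  have hlt : ∀ z : ℝ, ⌊(B : ℝ) * Int.fract z⌋₊ < B := by
    intro z
    rw [Nat.floor_lt (mul_nonneg hB0.le (Int.fract_nonneg _))]
    have := Int.fract_lt_one z
    nlinarith
  let V : ℕ → (Fin L → Fin B) := fun m i =>
    ⟨⌊(B : ℝ) * Int.fract ((B : ℝ) ^ (i : ℕ) * Y m)⌋₊, hlt _⟩
  let a' : Fin B := ⟨a, ha⟩
  have hcount : ∀ m, ((range L).filter (fun i =>
      ⌊(B : ℝ) * Int.fract ((B : ℝ) ^ i * Y m)⌋₊ = a)).card = occw a' (V m) := by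
    intro m
    unfold occw
    symm
    refine Finset.card_bij (fun i _ => (i : ℕ)) ?_ ?_ ?_
    · intro i hi
      rw [Finset.mem_filter] at hi
      rw [Finset.mem_filter, Finset.mem_range]
      exact ⟨i.2, congrArg Fin.val hi.2⟩
    · intro i _ j _ h
      exact Fin.ext h
    · intro i hi
      rw [Finset.mem_filter, Finset.mem_range] at hi
      refine ⟨⟨i, hi.1⟩, ?_, rfl⟩
      rw [Finset.mem_filter]
      exact ⟨Finset.mem_univ _, Fin.ext hi.2⟩
  set Bad : Finset (Fin L → Fin B) := univ.filter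
    (fun W => η * L < |(occw a' W : ℝ) - L / Fintype.card (Fin B)|) with hBad
  have hbad := bad_words a' η hη hη1 L
  rw [← hBad, Fintype.card_fin] at hbad
  set S := (range M).filter (fun m => η * L < |((((range L).filter (fun i =>
      ⌊(B : ℝ) * Int.fract ((B : ℝ) ^ i * Y m)⌋₊ = a)).card : ℕ) : ℝ) -
        L / (B : ℝ)|) with hS
  have himg : S.image V ⊆ Bad := by
    intro W hW
    rw [Finset.mem_image] at hW
    obtain ⟨m, hm, rfl⟩ := hW
    rw [hS, Finset.mem_filter, hcount] at hm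
    rw [hBad, Finset.mem_filter, Fintype.card_fin]
    exact ⟨Finset.mem_univ _, hm.2⟩
  have hfib : ∀ W ∈ S.image V, ((S.filter (fun m => V m = W)).card : ℝ) ≤ Q := by
    intro W hW
    rw [Finset.mem_image] at hW
    obtain ⟨m0, hm0, rfl⟩ := hW
    refine le_trans (Nat.cast_le.2 (Finset.card_le_card ?_))
      (hQ ⌊(B : ℝ) ^ L * Int.fract (Y m0)⌋)
    intro m hm
    rw [Finset.mem_filter] at hm ⊢
    refine ⟨(Finset.mem_filter.1 hm.1).1, ?_⟩
    apply floor_eq_of_digits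
    intro i hi
    exact congrArg Fin.val (congrFun hm.2 ⟨i, hi⟩)
  have hsum : (S.card : ℝ) ≤ (S.image V).card * Q := by
    rw [Finset.card_eq_sum_card_image V S]
    push_cast
    calc ∑ W ∈ S.image V, (((S.filter (fun m => V m = W)).card : ℕ) : ℝ)
        ≤ ∑ _W ∈ S.image V, Q := Finset.sum_le_sum hfib
      _ = _ := by rw [Finset.sum_const, nsmul_eq_mul]
  calc (S.card : ℝ) ≤ (S.image V).card * Q := hsum
    _ ≤ (Bad.card : ℝ) * Q := by
        apply mul_le_mul_of_nonneg_right _ hQ0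
        exact_mod_cast Finset.card_le_card himg
    _ ≤ (2 * Real.exp (-(η ^ 2 / 4) * L) * (B : ℝ) ^ L) * Q :=
        mul_le_mul_of_nonneg_right hbad hQ0

end Pool.Agent.H609.GF
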